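import Mathlib

set_option autoImplicit false

namespace Pool.Agent.H.MP_fe87ae_co

open Filter Topology

section general
variable {X : Type} [MetricSpace X]

def LionWins (x0 y0 : X) : Prop :=
  ∃ F : (NNReal → X) → (NNReal → X),
    (∀ c : NNReal → X, LipschitzWith 1 c → c 0 = y0 → LipschitzWith 1 (F c) ∧ F c 0 = x0) ∧
    (∀ c c' : NNReal → X, LipschitzWith 1 c → c 0 = y0 → LipschitzWith 1 c' → c' 0 = y0 →
      ∀ t : NNReal, (∀ s, s ≤ t → c s = c' s) → F c t = F c' t) ∧
    (∀ c : NNReal → X, LipschitzWith 1 c → c 0 = y0 → ∃ t : NNReal, F c t = c t)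

def ChrWins (x0 y0 : X) : Prop :=
  ∃ G : (NNReal → X) → (NNReal → X),
    (∀ l : NNReal → X, LipschitzWith 1 l → l 0 = x0 → LipschitzWith 1 (G l) ∧ G l 0 = y0) ∧
    (∀ l l' : NNReal → X, LipschitzWith 1 l → l 0 = x0 → LipschitzWith 1 l' → l' 0 = x0 →
      ∀ t : NNReal, (∀ s, s ≤ t → l s = l' s) → G l t = G l' t) ∧
    (∀ l : NNReal → X, LipschitzWith 1 l → l 0 = x0 → ∀ t : NNReal, G l t ≠ l t)

theorem lip_of {f : NNReal → X}
    (h : ∀ a b : NNReal, a ≤ b → dist (f a) (f b) ≤ (b : ℝ) - a) : LipschitzWith 1 f := by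
  refine LipschitzWith.mk_one fun a b => ?_
  rw [NNReal.dist_eq]
  rcases le_total a b with hab | hab
  · refine le_trans (h a b hab) ?_
    rw [abs_sub_comm]
    exact le_abs_self _
  · rw [dist_comm]
    exact le_trans (h b a hab) (le_abs_self _)

theorem lip_real {f : NNReal → X} (hf : LipschitzWith 1 f) {s t : ℝ} (hs : 0 ≤ s) (hst : s ≤ t) :
    dist (f s.toNNReal) (f t.toNNReal) ≤ t - s := by
  have := hf.dist_le_mul s.toNNReal t.toNNReal
  rw [NNReal.dist_eq, Real.coe_toNNReal _ hs, Real.coe_toNNReal _ (hs.trans hst), abs_sub_comm,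
    abs_of_nonneg (by linarith)] at this
  simpa using this

theorem lip_ext {f : NNReal → X} (hf : LipschitzWith 1 f) :
    LipschitzWith 1 fun t : ℝ => f t.toNNReal := by
  have := hf.comp Real.lipschitzWith_toNNReal
  rw [one_mul] at this
  exact this

theorem le_toNN {s : NNReal} {r : ℝ} (h0 : 0 ≤ r) (hs : s ≤ r.toNNReal) : (s : ℝ) ≤ r := by
  have : (s : ℝ) ≤ r.toNNReal := hs
  rwa [Real.coe_toNNReal _ h0] at this

theorem concat {f : NNReal → X} (hf : LipschitzWith 1 f) {t : ℝ} (ht : 0 ≤ t) {γ : ℝ → X}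
    (h0 : γ 0 = f t.toNNReal) (hγ : ∀ a b, 0 ≤ a → a ≤ b → dist (γ a) (γ b) ≤ b - a) :
    ∃ f' : NNReal → X, LipschitzWith 1 f' ∧ (∀ s, s ≤ t.toNNReal → f' s = f s) ∧
      ∀ u : ℝ, 0 ≤ u → f' (t + u).toNNReal = γ u := by
  refine ⟨fun s => if (s : ℝ) ≤ t then f s else γ (s - t), lip_of fun a b hab => ?_, ?_, ?_⟩
  · have hab' : (a : ℝ) ≤ b := hab
    have e1 : ∀ s : NNReal, (s : ℝ) ≤ t → dist (f s) (f t.toNNReal) ≤ t - s := fun s hs => by
      simpa using lip_real hf s.2 hs
    by_cases h1 : (a : ℝ) ≤ t <;> by_cases h2 : (b : ℝ) ≤ t <;> simp only [h1, h2, if_true, if_false]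
    · simpa using lip_real hf a.2 hab'
    · have e2 := hγ 0 (b - t) le_rfl (by linarith)
      have e3 := dist_triangle (f a) (f t.toNNReal) (γ (b - t))
      rw [h0] at e2
      linarith [e1 a h1]
    · exfalso
      linarith
    · have := hγ (a - t) (b - t) (by linarith) (by linarith)
      linarith
  · intro s hs
    exact if_pos (le_toNN ht hs)
  · intro u hu
    simp only [Real.coe_toNNReal _ (add_nonneg ht hu)]
    split_ifs with h
    · have : u = 0 := by linarith
      rw [this, add_zero, h0]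
    · rw [add_sub_cancel_left]

theorem limit_capture [CompleteSpace X] {x0 y0 : X} {G : (NNReal → X) → (NNReal → X)}
    (h1 : ∀ l : NNReal → X, LipschitzWith 1 l → l 0 = x0 → LipschitzWith 1 (G l) ∧ G l 0 = y0)
    (h2 : ∀ l l' : NNReal → X, LipschitzWith 1 l → l 0 = x0 → LipschitzWith 1 l' → l' 0 = x0 →
      ∀ t : NNReal, (∀ s, s ≤ t → l s = l' s) → G l t = G l' t)
    (Inv : (NNReal → X) → ℝ → Prop) (T C : ℝ) (hC : 0 ≤ C)
    (hI : ∀ f t, Inv f t → LipschitzWith 1 f ∧ f 0 = x0 ∧ 0 ≤ t ∧ t ≤ T)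
    (step : ∀ f t, Inv f t → ∃ f' t', Inv f' t' ∧ t ≤ t' ∧ (∀ s, s ≤ t.toNNReal → f' s = f s) ∧
      dist (f t.toNNReal) (G f t.toNNReal) ≤ C * Real.sqrt (t' - t))
    {f0 : NNReal → X} {t0 : ℝ} (init : Inv f0 t0) :
    ∃ f, LipschitzWith 1 f ∧ f 0 = x0 ∧ ∃ t, G f t = f t := by
  have step' : ∀ p : {p : (NNReal → X) × ℝ // Inv p.1 p.2},
      ∃ q : {p : (NNReal → X) × ℝ // Inv p.1 p.2}, p.1.2 ≤ q.1.2 ∧
        (∀ s, s ≤ p.1.2.toNNReal → q.1.1 s = p.1.1 s) ∧
        dist (p.1.1 p.1.2.toNNReal) (G p.1.1 p.1.2.toNNReal) ≤ C * Real.sqrt (q.1.2 - p.1.2) := by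
    rintro ⟨⟨f, t⟩, h⟩
    obtain ⟨f', t', a1, a2⟩ := step f t h
    exact ⟨⟨(f', t'), a1⟩, a2⟩
  choose nx hn1 hn2 hn3 using step'
  let sq : ℕ → {p : (NNReal → X) × ℝ // Inv p.1 p.2} := fun n => nx^[n] ⟨(f0, t0), init⟩
  have hsq : ∀ n, sq (n + 1) = nx (sq n) := fun n => Function.iterate_succ_apply' _ _ _
  obtain ⟨c, hc⟩ : ∃ c : ℕ → NNReal → X, c = fun n => (sq n).1.1 := ⟨_, rfl⟩
  obtain ⟨t, ht⟩ : ∃ t : ℕ → ℝ, t = fun n => (sq n).1.2 := ⟨_, rfl⟩
  have k0 : ∀ n, Inv (c n) (t n) := fun n => by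
    rw [hc, ht]
    exact (sq n).2
  have k1 : ∀ n s, s ≤ (t n).toNNReal → c (n + 1) s = c n s := fun n => by
    rw [hc, ht]
    simp only [hsq]
    exact hn2 (sq n)
  have k2 : ∀ n, t n ≤ t (n + 1) := fun n => by
    rw [ht]
    simp only [hsq]
    exact hn1 (sq n)
  have k4 : ∀ n, dist (c n (t n).toNNReal) (G (c n) (t n).toNNReal) ≤
      C * Real.sqrt (t (n + 1) - t n) := fun n => by
    rw [hc, ht]
    simp only [hsq]
    exact hn3 (sq n)
  clear hc ht hsq sq hn1 hn2 hn3 nx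
  have mono : Monotone t := monotone_nat_of_le_succ k2
  have bdd : BddAbove (Set.range t) := ⟨T, by
    rintro _ ⟨n, rfl⟩
    exact (hI _ _ (k0 n)).2.2.2⟩
  have lim : Tendsto t atTop (𝓝 (⨆ n, t n)) := tendsto_atTop_ciSup mono bdd
  have hle : ∀ n, t n ≤ ⨆ n, t n := fun n => le_ciSup bdd n
  generalize (⨆ n, t n) = L at lim hle
  have k3 : ∀ n m, n ≤ m → ∀ s, s ≤ (t n).toNNReal → c m s = c n s := by
    intro n m hnm
    induction m, hnm using Nat.le_induction with
    | base => exact fun _ _ => rfl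
    | succ m hm ih =>
      intro b hb
      rw [k1 m b (hb.trans (Real.toNNReal_le_toNNReal (mono hm))), ih b hb]
  have dmin : ∀ a b a' b' : NNReal, dist (min a b) (min a' b') ≤ max (dist a a') (dist b b') := by
    intro a b a' b'
    simp only [NNReal.dist_eq, NNReal.coe_min]
    exact abs_min_sub_min_le_max _ _ _ _
  have cB : CauchySeq fun n => (t n).toNNReal :=
    ((continuous_real_toNNReal.tendsto L).comp lim).cauchySeq
  have cK : ∀ b, ∃ w, Tendsto (fun n => c n (min b (t n).toNNReal)) atTop (𝓝 w) := by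
    intro b
    apply cauchySeq_tendsto_of_complete
    have key : ∀ n m, n ≤ m → dist (c n (min b (t n).toNNReal)) (c m (min b (t m).toNNReal)) ≤
        dist (t n).toNNReal (t m).toNNReal := by
      intro n m h
      rw [← k3 n m h _ (min_le_right _ _)]
      refine le_trans ((hI _ _ (k0 m)).1.dist_le_mul _ _) ?_
      simpa using dmin b (t n).toNNReal b (t m).toNNReal
    refine Metric.cauchySeq_iff.2 fun ε hε => ?_
    obtain ⟨N, hN⟩ := Metric.cauchySeq_iff.1 cB ε hε
    refine ⟨N, fun m hm n hn => lt_of_le_of_lt ?_ (hN m hm n hn)⟩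
    rcases le_total m n with h | h
    · exact key m n h
    · rw [dist_comm, dist_comm (t m).toNNReal]
      exact key n m h
  choose w hw using cK
  have w1 : ∀ n s, s ≤ (t n).toNNReal → w s = c n s := by
    intro n b hb
    refine tendsto_nhds_unique (hw b) (tendsto_const_nhds.congr' ?_)
    filter_upwards [eventually_ge_atTop n] with m hm
    rw [min_eq_left (hb.trans (Real.toNNReal_le_toNNReal (mono hm))), k3 n m hm b hb]
  have w2 : LipschitzWith 1 w := by
    refine LipschitzWith.mk_one fun a b => ?_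
    refine le_of_tendsto' ((hw a).dist (hw b)) fun n => ?_
    refine le_trans ((hI _ _ (k0 n)).1.dist_le_mul _ _) ?_
    simpa using dmin a (t n).toNNReal b (t n).toNNReal
  have w0 : w 0 = x0 := (w1 0 0 (by simp)).trans (hI _ _ (k0 0)).2.1
  have fin : ∀ n, dist (G w L.toNNReal) (w L.toNNReal) ≤
      2 * (L - t n) + C * Real.sqrt (L - t n) := by
    intro n
    obtain ⟨a1, a2, a3, -⟩ := hI _ _ (k0 n)
    have e1 := k4 n
    rw [← h2 w (c n) w2 w0 a1 a2 _ (w1 n), ← w1 n _ le_rfl] at e1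
    have e2 := lip_real (h1 w w2 w0).1 a3 (hle n)
    have e3 := lip_real w2 a3 (hle n)
    have e4 := dist_triangle4 (G w L.toNNReal) (G w (t n).toNNReal)
      (w (t n).toNNReal) (w L.toNNReal)
    rw [dist_comm] at e1 e2
    have e5 : C * Real.sqrt (t (n + 1) - t n) ≤ C * Real.sqrt (L - t n) :=
      mul_le_mul_of_nonneg_left (Real.sqrt_le_sqrt (by linarith [hle (n + 1)])) hC
    linarith
  have l0 : Tendsto (fun n => 2 * (L - t n) + C * Real.sqrt (L - t n)) atTop
      (𝓝 (2 * (L - L) + C * Real.sqrt (L - L))) :=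
    (((tendsto_const_nhds.sub lim).const_mul 2).add
      ((tendsto_const_nhds.sub lim).sqrt.const_mul C))
  have l1 := ge_of_tendsto' l0 fin
  simp only [sub_self, mul_zero, Real.sqrt_zero, add_zero] at l1
  exact ⟨w, w2, w0, L.toNNReal, dist_le_zero.1 l1⟩

theorem first_zero {v : ℝ → ℝ} (hv : Continuous v) {a b : ℝ} (hab : a ≤ b) (ha : 0 < v a)
    (hb : v b ≤ 0) : ∃ c, a < c ∧ c ≤ b ∧ v c = 0 ∧ ∀ t, a ≤ t → t < c → 0 < v t := by
  have hK : IsCompact (Set.Icc a b ∩ v ⁻¹' {0}) :=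
    isCompact_Icc.inter_right (isClosed_singleton.preimage hv)
  obtain ⟨c0, h0, h1⟩ := intermediate_value_Icc' hab hv.continuousOn
    (show (0 : ℝ) ∈ Set.Icc (v b) (v a) from ⟨hb, ha.le⟩)
  obtain ⟨c, hc, hl⟩ := hK.exists_isLeast ⟨c0, h0, h1⟩
  have hc0 : v c = 0 := hc.2
  refine ⟨c, lt_of_le_of_ne hc.1.1 ?_, hc.1.2, hc0, fun t h2 h3 => ?_⟩
  · rintro rfl
    linarith
  · by_contra h4
    obtain ⟨d, h5, h6⟩ := intermediate_value_Icc' h2 hv.continuousOn
      (show (0 : ℝ) ∈ Set.Icc (v t) (v a) from ⟨not_lt.1 h4, ha.le⟩)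
    have := hl ⟨⟨h5.1, by linarith [h5.2, hc.1.2]⟩, h6⟩
    linarith [h5.2]

theorem eq_at_end {u v : ℝ → ℝ} (hu : Continuous u) (hv : Continuous v) {a c : ℝ} (hac : a < c)
    (h : ∀ t, a ≤ t → t < c → u t = v t) : u c = v c := by
  have h1 : closure (Set.Ico a c) ⊆ {t | u t = v t} :=
    (isClosed_eq hu hv).closure_subset_iff.2 fun t ht => h t ht.1 ht.2
  rw [closure_Ico hac.ne] at h1
  exact h1 ⟨hac.le, le_rfl⟩

end general

structure Gauge (X : Type) [MetricSpace X] where
  ρ : X → ℝ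
  nonneg : ∀ x, 0 ≤ ρ x
  lip : ∀ x y, ρ x - ρ y ≤ dist x y

section cpt
variable {X : Type} [MetricSpace X]

/-- one point added at distance `1 / (1 + ρ)` -/
def Cpt (_ : Gauge X) : Type := Option X

noncomputable def Gauge.r (g : Gauge X) (x : X) : ℝ := 1 / (1 + g.ρ x)

theorem Gauge.r_pos (g : Gauge X) (x : X) : 0 < g.r x := by
  have := g.nonneg x
  unfold Gauge.r
  positivity

theorem Gauge.r_lip (g : Gauge X) (x y : X) : g.r x ≤ dist x y + g.r y := by
  have a := g.nonneg x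
  have b := g.nonneg y
  have c := g.lip y x
  have d := dist_nonneg (x := x) (y := y)
  rw [dist_comm] at c
  unfold Gauge.r
  rw [← sub_le_iff_le_add, div_sub_div _ _ (by positivity) (by positivity), div_le_iff₀ (by positivity)]
  have : 0 ≤ dist x y * (g.ρ x + g.ρ y + g.ρ x * g.ρ y) := by positivity
  nlinarith

noncomputable def Gauge.d (g : Gauge X) : Option X → Option X → ℝ
  | none, none => 0
  | none, some y => g.r y
  | some x, none => g.r x
  | some x, some y => min (dist x y) (g.r x + g.r y)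

noncomputable instance (g : Gauge X) : MetricSpace (Cpt g) where
  dist := g.d
  dist_self := by
    rintro (_ | x)
    · rfl
    · show min (dist x x) _ = 0
      rw [dist_self]
      exact min_eq_left (by linarith [g.r_pos x])
  dist_comm := by
    rintro (_ | x) (_ | y)
    · rfl
    · rfl
    · rfl
    · show min (dist x y) _ = min (dist y x) _
      rw [dist_comm, add_comm]
  dist_triangle := by
    rintro (_ | x) (_ | y) (_ | z)
    · show (0 : ℝ) ≤ 0 + 0
      linarith
    · show g.r z ≤ 0 + g.r z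
      linarith
    · show 0 ≤ g.r y + g.r y
      linarith [g.r_pos y]
    · show g.r z ≤ g.r y + min (dist y z) (g.r y + g.r z)
      have := g.r_lip z y
      rw [dist_comm] at this
      rcases min_cases (dist y z) (g.r y + g.r z) with h | h <;> linarith [h.1, g.r_pos y]
    · show g.r x ≤ g.r x + 0
      linarith
    · exact min_le_right _ _
    · show g.r x ≤ min (dist x y) (g.r x + g.r y) + g.r y
      have := g.r_lip x y
      rcases min_cases (dist x y) (g.r x + g.r y) with h | h <;> linarith [h.1, g.r_pos y]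
    · show min (dist x z) (g.r x + g.r z) ≤
        min (dist x y) (g.r x + g.r y) + min (dist y z) (g.r y + g.r z)
      have a1 := g.r_lip x y
      have a2 := g.r_lip z y
      rw [dist_comm] at a2
      have a3 := min_le_left (dist x z) (g.r x + g.r z)
      have a4 := min_le_right (dist x z) (g.r x + g.r z)
      have a5 := dist_triangle x y z
      rcases min_cases (dist x y) (g.r x + g.r y) with h | h <;>
        rcases min_cases (dist y z) (g.r y + g.r z) with h' | h' <;>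
        linarith [h.1, h'.1, g.r_pos y]
  eq_of_dist_eq_zero := by
    rintro (_ | x) (_ | y) h
    · rfl
    · exact absurd h (g.r_pos y).ne'
    · exact absurd h (g.r_pos x).ne'
    · have h' : min (dist x y) (g.r x + g.r y) = 0 := h
      rcases min_cases (dist x y) (g.r x + g.r y) with h1 | h1
      · rw [dist_eq_zero.1 (h1.1.symm.trans h')]
      · linarith [h1.1, g.r_pos x, g.r_pos y]

def infty (g : Gauge X) : Cpt g := none

def inc (g : Gauge X) (x : X) : Cpt g := some x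

theorem inc_lip (g : Gauge X) : LipschitzWith 1 (inc g) :=
  LipschitzWith.mk_one fun _ _ => min_le_left _ _

theorem inc_inj (g : Gauge X) {x y : X} (h : inc g x = inc g y) : x = y := Option.some.inj h

theorem cpt_compact (g : Gauge X) (hK : ∀ M, IsCompact {x | g.ρ x ≤ M}) : CompactSpace (Cpt g) := by
  refine ⟨isCompact_iff_ultrafilter_le_nhds.2 fun F _ => ?_⟩
  by_cases h : (F : Filter (Cpt g)) ≤ 𝓝 (infty g)
  · exact ⟨_, trivial, h⟩
  · rw [Metric.nhds_basis_ball.ge_iff] at h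
    push Not at h
    obtain ⟨ε, hε, h⟩ := h
    have h1 := Ultrafilter.compl_mem_iff_notMem.2 h
    have h2 : IsCompact (inc g '' {x | g.ρ x ≤ 1 / ε}) := (hK _).image (inc_lip g).continuous
    obtain ⟨x, -, hx⟩ := isCompact_iff_ultrafilter_le_nhds.1 h2 F (by
      rw [le_principal_iff]
      refine mem_of_superset h1 ?_
      rintro (_ | x) hx
      · exact absurd (Metric.mem_ball_self hε) hx
      · refine ⟨x, ?_, rfl⟩
        have h3 : ε ≤ g.r x := not_lt.1 hx
        have h4 := g.nonneg x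
        unfold Gauge.r at h3
        rw [le_div_iff₀ (by positivity)] at h3
        show g.ρ x ≤ 1 / ε
        rw [le_div_iff₀ hε]
        nlinarith)
    exact ⟨x, trivial, hx⟩

theorem lift_path (g : Gauge X) {f : NNReal → Cpt g} (hf : LipschitzWith 1 f) {x : X}
    (h0 : f 0 = inc g x) : ∃ f' : NNReal → X, LipschitzWith 1 f' ∧ ∀ t, f t = inc g (f' t) := by
  have loc : ∀ (a b : ℝ) (p : X), 0 ≤ a → a ≤ b → f a.toNNReal = inc g p → b - a < g.r p →
      ∃ q, f b.toNNReal = inc g q ∧ dist p q ≤ b - a := by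
    intro a b p ha hab hp hr
    have h1 := lip_real hf ha hab
    rw [hp] at h1
    rcases hq : f b.toNNReal with _ | q
    · rw [hq] at h1
      have h2 : g.r p ≤ b - a := h1
      linarith
    · rw [hq] at h1
      have h2 : min (dist p q) (g.r p + g.r q) ≤ b - a := h1
      refine ⟨q, rfl, ?_⟩
      rcases min_le_iff.1 h2 with h3 | h3
      · exact h3
      · linarith [g.r_pos q]
  have glob : ∀ (a b : ℝ) (p : X), 0 ≤ a → a ≤ b → f a.toNNReal = inc g p →
      ∃ q, f b.toNNReal = inc g q ∧ dist p q ≤ b - a := by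
    intro a b p ha hab hp
    have hρ := g.nonneg p
    obtain ⟨δ, hδ⟩ : ∃ δ : ℝ, δ = 1 / (2 + g.ρ p + (b - a)) := ⟨_, rfl⟩
    have hδ0 : 0 < δ := by
      rw [hδ]
      have : 0 ≤ b - a := by linarith
      positivity
    have ind : ∀ n : ℕ, ∀ c, a ≤ c → c ≤ b → c ≤ a + n * δ →
        ∃ q, f c.toNNReal = inc g q ∧ dist p q ≤ c - a := by
      intro n
      induction n with
      | zero =>
        intro c h1 _ h3
        have : c = a := by
          simp only [Nat.cast_zero, zero_mul, add_zero] at h3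
          linarith
        exact ⟨p, this ▸ hp, by simp [this]⟩
      | succ n ih =>
        intro c h1 h2 h3
        by_cases h4 : c ≤ a + n * δ
        · exact ih c h1 h2 h4
        · have h5 : 0 ≤ (n : ℝ) * δ := by positivity
          obtain ⟨q, e1, e2⟩ := ih (a + n * δ) (by linarith) (by linarith) le_rfl
          have e3 := g.lip q p
          rw [dist_comm] at e3
          have e4 : δ < g.r q := by
            rw [hδ]
            have := g.nonneg q
            exact one_div_lt_one_div_of_lt (by positivity) (by linarith)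
          push_cast at h3
          obtain ⟨q', e5, e6⟩ := loc (a + n * δ) c q (by linarith) (by linarith) e1 (by linarith)
          exact ⟨q', e5, by linarith [dist_triangle p q q']⟩
    obtain ⟨n, hn⟩ := exists_nat_ge ((b - a) / δ)
    rw [div_le_iff₀ hδ0] at hn
    exact ind n b hab le_rfl (by linarith)
  have ex : ∀ t : NNReal, ∃ q, f t = inc g q := by
    intro t
    obtain ⟨q, h1, -⟩ := glob 0 t x le_rfl t.2 (by simpa using h0)
    exact ⟨q, by simpa using h1⟩
  choose f' hf' using ex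
  refine ⟨f', lip_of fun a b hab => ?_, hf'⟩
  obtain ⟨q, h1, h2⟩ := glob a b (f' a) a.2 hab (by simpa using hf' a)
  rw [Real.toNNReal_coe, hf' b] at h1
  rw [inc_inj g h1]
  exact h2

theorem lift_strat (g : Gauge X) {x0 y0 : X} {F : (NNReal → Cpt g) → (NNReal → Cpt g)}
    (h1 : ∀ c : NNReal → Cpt g, LipschitzWith 1 c → c 0 = inc g y0 →
      LipschitzWith 1 (F c) ∧ F c 0 = inc g x0) :
    ∃ F' : (NNReal → X) → (NNReal → X), ∀ c : NNReal → X, LipschitzWith 1 c → c 0 = y0 →
      LipschitzWith 1 (inc g ∘ c) ∧ (inc g ∘ c) 0 = inc g y0 ∧ LipschitzWith 1 (F' c) ∧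
        F' c 0 = x0 ∧ ∀ t, F (inc g ∘ c) t = inc g (F' c t) := by
  have : ∀ c : NNReal → X, ∃ f' : NNReal → X, LipschitzWith 1 c → c 0 = y0 →
      LipschitzWith 1 (inc g ∘ c) ∧ (inc g ∘ c) 0 = inc g y0 ∧ LipschitzWith 1 f' ∧
        f' 0 = x0 ∧ ∀ t, F (inc g ∘ c) t = inc g (f' t) := by
    intro c
    by_cases h : LipschitzWith 1 c ∧ c 0 = y0
    · have a1 : LipschitzWith 1 (inc g ∘ c) := by simpa using (inc_lip g).comp h.1
      have a2 : (inc g ∘ c) 0 = inc g y0 := congrArg (inc g) h.2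
      obtain ⟨f', b1, b2⟩ := lift_path g (h1 _ a1 a2).1 (h1 _ a1 a2).2
      exact ⟨f', fun _ _ => ⟨a1, a2, b1, inc_inj g ((b2 0).symm.trans (h1 _ a1 a2).2), b2⟩⟩
    · exact ⟨c, fun a b => absurd ⟨a, b⟩ h⟩
  choose F' hF' using this
  exact ⟨F', hF'⟩

theorem lion_transfer (g : Gauge X) {x0 y0 : X} (h : LionWins (inc g x0) (inc g y0)) :
    LionWins x0 y0 := by
  obtain ⟨F, h1, h2, h3⟩ := h
  obtain ⟨F', hF⟩ := lift_strat g h1
  refine ⟨F', fun c a b => ⟨(hF c a b).2.2.1, (hF c a b).2.2.2.1⟩, ?_, ?_⟩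
  · intro c c' a b a' b' t h
    apply inc_inj g
    rw [← (hF c a b).2.2.2.2, ← (hF c' a' b').2.2.2.2]
    exact h2 _ _ (hF c a b).1 (hF c a b).2.1 (hF c' a' b').1 (hF c' a' b').2.1 t
      fun s hs => congrArg (inc g) (h s hs)
  · intro c a b
    obtain ⟨t, ht⟩ := h3 _ (hF c a b).1 (hF c a b).2.1
    exact ⟨t, inc_inj g (((hF c a b).2.2.2.2 t).symm.trans ht)⟩

theorem chr_transfer (g : Gauge X) {x0 y0 : X} (h : ChrWins (inc g x0) (inc g y0)) :
    ChrWins x0 y0 := by
  obtain ⟨F, h1, h2, h3⟩ := h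
  obtain ⟨F', hF⟩ := lift_strat g h1
  refine ⟨F', fun c a b => ⟨(hF c a b).2.2.1, (hF c a b).2.2.2.1⟩, ?_, ?_⟩
  · intro c c' a b a' b' t h
    apply inc_inj g
    rw [← (hF c a b).2.2.2.2, ← (hF c' a' b').2.2.2.2]
    exact h2 _ _ (hF c a b).1 (hF c a b).2.1 (hF c' a' b').1 (hF c' a' b').2.1 t
      fun s hs => congrArg (inc g) (h s hs)
  · intro c a b t e
    exact h3 _ (hF c a b).1 (hF c a b).2.1 t (((hF c a b).2.2.2.2 t).trans (congrArg (inc g) e))

end cpt

end Pool.Agent.H.MP_fe87ae_co
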