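import Pool.Agent.H.MP_fe87ae_co.A

set_option autoImplicit false

namespace Pool.Agent.H.MP_fe87ae_co

open Filter Topology

noncomputable def T (y : ℝ) : ℝ := 1 / (1 + |y|)

noncomputable def W (y : ℝ) : ℝ := y - 1 + T y

theorem T_cont : Continuous T := by
  unfold T
  exact continuous_const.div (by fun_prop) fun y => by positivity

theorem W_cont : Continuous W := by
  unfold W
  exact (continuous_id.sub continuous_const).add T_cont

theorem T_eq {y : ℝ} (h : 0 ≤ y) : T y = 1 / (1 + y) := by rw [T, abs_of_nonneg h]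

theorem T_pos (y : ℝ) : 0 < T y := by
  unfold T
  positivity

theorem T_diff {a b : ℝ} (ha : 0 ≤ a) (hb : 0 ≤ b) : T a - T b = (b - a) / ((1 + a) * (1 + b)) := by
  rw [T_eq ha, T_eq hb]
  field_simp
  ring

theorem T_anti {a b : ℝ} (ha : 0 ≤ a) (h : a ≤ b) : T b ≤ T a := by
  have h1 := T_diff ha (ha.trans h)
  have : 0 ≤ (b - a) / ((1 + a) * (1 + b)) :=
    div_nonneg (by linarith) (mul_nonneg (by linarith) (by linarith))
  linarith

theorem T_strict {a b : ℝ} (ha : 0 ≤ a) (h : a < b) : T b < T a := by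
  have h1 := T_diff ha (ha.trans h.le)
  have : 0 < (b - a) / ((1 + a) * (1 + b)) :=
    div_pos (by linarith) (mul_pos (by linarith) (by linarith))
  linarith

theorem T_lip {a b : ℝ} (ha : 0 ≤ a) (h : a ≤ b) : T a - T b ≤ b - a := by
  rw [T_diff ha (ha.trans h)]
  exact div_le_self (by linarith) (by nlinarith)

theorem T_sm {b α β : ℝ} (hb : 0 ≤ b) (hα : 0 ≤ α) (hβ : 0 ≤ β) :
    T (b + α) + T (b + β) ≤ T b + T (b + α + β) := by
  have h1 := T_diff hb (add_nonneg hb hα)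
  have h2 := T_diff (add_nonneg hb hβ) (show 0 ≤ b + α + β by linarith)
  have h3 : (b + α + β - (b + β)) / ((1 + (b + β)) * (1 + (b + α + β))) ≤
      (b + α - b) / ((1 + b) * (1 + (b + α))) := by
    rw [show b + α + β - (b + β) = α by ring, show b + α - b = α by ring]
    refine div_le_div_of_nonneg_left hα (by positivity) ?_
    exact mul_le_mul (by linarith) (by linarith) (by linarith) (by linarith)
  linarith

theorem W_eq {y : ℝ} (h : 0 ≤ y) : W y = y ^ 2 / (1 + y) := by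
  rw [W, T_eq h]
  field_simp
  ring

theorem W_zero : W 0 = 0 := by simp [W, T]

theorem W_two : W 2 = 4 / 3 := by
  rw [W_eq (by norm_num)]
  norm_num

theorem W_mono {a b : ℝ} (ha : 0 ≤ a) (h : a ≤ b) : W a ≤ W b := by
  have := T_lip ha h
  unfold W
  linarith

theorem W_lip {a b : ℝ} (ha : 0 ≤ a) (h : a ≤ b) : W b - W a ≤ b - a := by
  have := T_anti ha h
  unfold W
  linarith

theorem W_nonneg {a : ℝ} (ha : 0 ≤ a) : 0 ≤ W a := W_zero ▸ W_mono le_rfl ha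

theorem W_le_sq {a : ℝ} (ha : 0 ≤ a) : W a ≤ a ^ 2 := by
  rw [W_eq ha]
  exact div_le_self (sq_nonneg _) (by linarith)

theorem W_ge_sq {a : ℝ} (ha : 0 ≤ a) (h1 : a ≤ 1 / 4) : 4 / 5 * a ^ 2 ≤ W a := by
  rw [W_eq ha, le_div_iff₀ (by linarith)]
  nlinarith [sq_nonneg a, mul_nonneg (sq_nonneg a) (show 0 ≤ 1 / 4 - a by linarith)]

theorem W_strict {a b : ℝ} (ha : 0 ≤ a) (h : a < b) : W a < W b := by
  have h1 := T_diff ha (ha.trans h.le)
  have h2 : (b - a) / ((1 + a) * (1 + b)) < b - a :=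
    div_lt_self (by linarith) (by nlinarith)
  unfold W
  linarith

theorem W_two_ge {m : ℝ} (h : 0 ≤ m) : 4 / 3 + 8 / 9 * m ≤ W (2 + m) := by
  have h1 := T_diff (show (0 : ℝ) ≤ 2 by norm_num) (show 0 ≤ 2 + m by linarith)
  have h2 : (2 + m - 2) / ((1 + 2) * (1 + (2 + m))) ≤ m / 9 := by
    rw [show 2 + m - 2 = m by ring]
    exact div_le_div_of_nonneg_left h (by norm_num) (by linarith)
  have h3 := W_two
  unfold W at h3 ⊢
  linarith

def Rel (d y y' t : ℝ) : Prop := |y - y'| ≤ t ∧ d + T y + T y' ≤ t + 2 * T ((y + y' + t) / 2)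

theorem Rel.symm {d y y' t : ℝ} (h : Rel d y y' t) : Rel d y' y t := by
  refine ⟨by rw [abs_sub_comm]; exact h.1, ?_⟩
  rw [add_comm y' y]
  linarith [h.2]

theorem Rel.mono_d {d d' y y' t : ℝ} (h : Rel d y y' t) (hd : d' ≤ d) : Rel d' y y' t :=
  ⟨h.1, by linarith [h.2]⟩

theorem Rel.mono_t {d y y' t t' : ℝ} (hy : 0 ≤ y) (hy' : 0 ≤ y') (h : Rel d y y' t)
    (ht : t ≤ t') : Rel d y y' t' := by
  refine ⟨h.1.trans ht, ?_⟩
  have h0 : 0 ≤ t := (abs_nonneg _).trans h.1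
  have := T_lip (show 0 ≤ (y + y' + t) / 2 by linarith)
    (show (y + y' + t) / 2 ≤ (y + y' + t') / 2 by linarith)
  linarith [h.2]

theorem Rel.add {d d' y y' y'' s t : ℝ} (hy' : 0 ≤ y') (h1 : Rel d y y' s) (h2 : Rel d' y' y'' t) :
    Rel (d + d') y y'' (s + t) := by
  refine ⟨le_trans (abs_sub_le y y' y'') (add_le_add h1.1 h2.1), ?_⟩
  have a1 := abs_le.1 h1.1
  have a2 := abs_le.1 h2.1
  have a3 := T_sm hy' (show 0 ≤ (y + s - y') / 2 by linarith)
    (show 0 ≤ (y'' + t - y') / 2 by linarith)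
  rw [show y' + (y + s - y') / 2 = (y + y' + s) / 2 by ring,
    show y' + (y'' + t - y') / 2 = (y' + y'' + t) / 2 by ring,
    show (y + y' + s) / 2 + (y'' + t - y') / 2 = (y + y'' + (s + t)) / 2 by ring] at a3
  linarith [h1.2, h2.2]

theorem Rel.le {d y y' t : ℝ} (hy : 0 ≤ y) (hy' : 0 ≤ y') (h : Rel d y y' t) : d ≤ t := by
  have a1 := abs_le.1 h.1
  have a2 := T_anti hy (show y ≤ (y + y' + t) / 2 by linarith)
  have a3 := T_anti hy' (show y' ≤ (y + y' + t) / 2 by linarith)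
  linarith [h.2]

theorem rel_of_W {d y y' t : ℝ} (hy : 0 ≤ y) (hy' : 0 ≤ y') (h1 : |y - y'| ≤ t)
    (h2 : d ≤ |W y - W y'|) : Rel d y y' t := by
  have key : ∀ a b : ℝ, 0 ≤ a → a ≤ b → Rel (W b - W a) a b (b - a) := by
    intro a b _ hab
    refine ⟨abs_le.2 ⟨by linarith, by linarith⟩, ?_⟩
    rw [show (a + b + (b - a)) / 2 = b by ring]
    unfold W
    linarith
  rcases le_total y y' with h | h
  · rw [abs_of_nonpos (by linarith [W_mono hy h])] at h2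
    rw [abs_of_nonpos (by linarith)] at h1
    exact ((key y y' hy h).mono_d (by linarith)).mono_t hy hy' (by linarith)
  · rw [abs_of_nonneg (by linarith [W_mono hy' h])] at h2
    rw [abs_of_nonneg (by linarith)] at h1
    exact (((key y' y hy' h).mono_d (by linarith)).mono_t hy' hy (by linarith)).symm

theorem rel_bound {d y y' : ℝ} (hd : 0 ≤ d) (hy : 0 ≤ y) (hy' : 0 ≤ y') :
    Rel d y y' (|y - y'| + 2 * (Real.sqrt d + d)) := by
  have h0 := Real.sqrt_nonneg d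
  have h1 := Real.sq_sqrt hd
  obtain ⟨σ, hσ⟩ : ∃ σ, σ = Real.sqrt d + d := ⟨_, rfl⟩
  have h2 : d ≤ 2 * W σ := by
    rw [W_eq (by linarith), ← mul_div_assoc, le_div_iff₀ (by linarith), hσ]
    nlinarith [mul_nonneg h0 hd]
  have h3 : Rel d y y (2 * σ) := by
    refine ⟨by simp; linarith, ?_⟩
    have := T_sm le_rfl hy (show 0 ≤ σ by linarith)
    rw [show (y + y + 2 * σ) / 2 = 0 + y + σ by ring]
    have h4 := W_zero
    simp only [zero_add] at this ⊢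
    unfold W at h2 h4
    linarith
  have h4 : Rel 0 y y' |y - y'| := rel_of_W hy hy' le_rfl (abs_nonneg _)
  have := h3.add hy h4
  rwa [add_zero, add_comm, hσ] at this

noncomputable def DR (d y y' : ℝ) : ℝ := sInf {t | Rel d y y' t}

theorem DR_le_iff {d y y' t : ℝ} (hd : 0 ≤ d) (hy : 0 ≤ y) (hy' : 0 ≤ y') :
    DR d y y' ≤ t ↔ Rel d y y' t := by
  have hb : BddBelow {t | Rel d y y' t} := ⟨0, fun t ht => (abs_nonneg _).trans ht.1⟩
  refine ⟨fun h => Rel.mono_t hy hy' ?_ h, fun h => csInf_le hb h⟩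
  have hc : IsClosed {t | Rel d y y' t} := by
    have c1 : IsClosed {t : ℝ | |y - y'| ≤ t} := isClosed_le continuous_const continuous_id
    have c2 : IsClosed {t : ℝ | d + T y + T y' ≤ t + 2 * T ((y + y' + t) / 2)} :=
      isClosed_le continuous_const
        (continuous_id.add (continuous_const.mul (T_cont.comp (by fun_prop))))
    exact c1.inter c2
  exact hc.csInf_mem ⟨_, rel_bound hd hy hy'⟩ hb

theorem DR_rel {d y y' : ℝ} (hd : 0 ≤ d) (hy : 0 ≤ y) (hy' : 0 ≤ y') : Rel d y y' (DR d y y') :=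
  (DR_le_iff hd hy hy').1 le_rfl

open Classical in
noncomputable def dE (i h j h' : ℝ) : ℝ := if i = j then |h - h'| else h + h'

theorem dE_same (i h h' : ℝ) : dE i h i h' = |h - h'| := by simp [dE]

theorem dE_ne {i j : ℝ} (hij : i ≠ j) (h h' : ℝ) : dE i h j h' = h + h' := by simp [dE, hij]

theorem dE_comm (i h j h' : ℝ) : dE i h j h' = dE j h' i h := by
  by_cases a : i = j
  · rw [a, dE_same, dE_same, abs_sub_comm]
  · rw [dE_ne a, dE_ne (Ne.symm a), add_comm]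

theorem dE_tri {i j k h h' h'' : ℝ} (h1 : 0 ≤ h) (h2 : 0 ≤ h') (h3 : 0 ≤ h'') :
    dE i h k h'' ≤ dE i h j h' + dE j h' k h'' := by
  unfold dE
  by_cases a : i = j <;> by_cases b : j = k <;> by_cases c : i = k
  · simp only [if_pos a, if_pos b, if_pos c]
    exact abs_sub_le _ _ _
  · exact absurd (a.trans b) c
  · exact absurd (a.symm.trans c) b
  · simp only [if_pos a, if_neg b, if_neg c]
    linarith [le_abs_self (h - h')]
  · exact absurd (c.trans b.symm) a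
  · simp only [if_neg a, if_pos b, if_neg c]
    linarith [neg_abs_le (h' - h'')]
  · simp only [if_neg a, if_neg b, if_pos c]
    exact abs_le.2 ⟨by linarith, by linarith⟩
  · simp only [if_neg a, if_neg b, if_neg c]
    linarith

theorem dE_ge {i j h h' : ℝ} (h1 : 0 ≤ h) (h2 : 0 ≤ h') : |h - h'| ≤ dE i h j h' := by
  by_cases a : i = j
  · rw [a, dE_same]
  · rw [dE_ne a]
    exact abs_le.2 ⟨by linarith, by linarith⟩

def SS : Set ℝ := {s | ∃ k : ℕ, s = 1 / 10 * (1 / 4) ^ k}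

theorem SS_pos {s : ℝ} (h : s ∈ SS) : 0 < s := by
  obtain ⟨k, rfl⟩ := h
  positivity

theorem SS_le {s : ℝ} (h : s ∈ SS) : s ≤ 1 / 10 := by
  obtain ⟨k, rfl⟩ := h
  have : (1 / 4 : ℝ) ^ k ≤ 1 := pow_le_one₀ (by norm_num) (by norm_num)
  linarith

theorem SS_gap {s s' : ℝ} (h : s ∈ SS) (h' : s' ∈ SS) (hlt : s < s') : 4 * s ≤ s' := by
  obtain ⟨k, rfl⟩ := h
  obtain ⟨k', rfl⟩ := h'
  have h1 : k' < k := by
    by_contra hc
    have := pow_le_pow_of_le_one (show (0 : ℝ) ≤ 1 / 4 by norm_num) (by norm_num) (not_lt.1 hc)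
    linarith
  have := pow_le_pow_of_le_one (show (0 : ℝ) ≤ 1 / 4 by norm_num) (by norm_num)
    (show k' + 1 ≤ k from h1)
  rw [pow_succ] at this
  linarith

theorem SS_next {s : ℝ} (h : s ∈ SS) : s / 4 ∈ SS := by
  obtain ⟨k, rfl⟩ := h
  exact ⟨k + 1, by rw [pow_succ]; ring⟩

theorem SS_first : (1 / 10 : ℝ) ∈ SS := ⟨0, by simp⟩

theorem SS_compact : IsCompact (insert 0 SS) := by
  have h : Tendsto (fun k : ℕ => (1 / 10 : ℝ) * (1 / 4) ^ k) atTop (𝓝 (1 / 10 * 0)) :=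
    (tendsto_pow_atTop_nhds_zero_of_lt_one (by norm_num) (by norm_num)).const_mul _
  rw [mul_zero] at h
  convert h.isCompact_insert_range using 2
  ext s
  exact ⟨fun ⟨k, hk⟩ => ⟨k, hk.symm⟩, fun ⟨k, hk⟩ => ⟨k, hk.symm⟩⟩

@[ext]
structure Pt where
  ρ : ℝ
  y : ℝ
  n : ℝ
  ι : ℝ
  h : ℝ

def Mem (P : Pt) : Prop :=
  0 ≤ P.y ∧ 0 ≤ P.ρ ∧
    ((P.ι = 0 ∧ P.h = 0 ∧ P.n = 0 ∧ W P.y ≤ 4 / 3 + P.ρ) ∨
    (P.ι = 0 ∧ P.h = 0 ∧ 0 ≤ P.n ∧ P.n ≤ 2 / 3 ∧ P.y = 2 ∧ P.ρ = 0) ∨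
    (P.ι ∈ SS ∧ P.n = 0 ∧ W P.ι < P.ρ ∧ P.h = min P.ι (P.ρ - W P.ι) ∧ W P.y ≤ 4 / 3 + P.ρ) ∨
    (-P.ι ∈ SS ∧ 0 < P.n ∧ P.n < 2 / 3 + P.ι / 2 ∧
      P.y = 2 + min (2 / 3 + P.ι / 2 - P.n) (P.ι ^ 2 / 5) ∧ P.ρ = W P.y - 4 / 3 ∧
      P.h = min (-P.ι) (min P.n (2 / 3 + P.ι / 2 - P.n))))

def X : Type := {P : Pt // Mem P}

theorem Mem.h_pos {P : Pt} (hp : Mem P) (h : P.ι ≠ 0) : 0 < P.h := by
  rcases hp.2.2 with a | a | a | a
  · exact absurd a.1 h
  · exact absurd a.1 h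
  · rw [a.2.2.2.1]
    exact lt_min (SS_pos a.1) (by linarith [a.2.2.1])
  · rw [a.2.2.2.2.2]
    exact lt_min (SS_pos a.1) (lt_min a.2.1 (by linarith [a.2.2.1]))

theorem Mem.h_zero {P : Pt} (hp : Mem P) (h : P.ι = 0) : P.h = 0 := by
  rcases hp.2.2 with a | a | a | a
  · exact a.2.1
  · exact a.2.1
  · exact absurd h (SS_pos a.1).ne'
  · exfalso
    linarith [SS_pos a.1]

theorem Mem.h_nonneg {P : Pt} (hp : Mem P) : 0 ≤ P.h := by
  by_cases h : P.ι = 0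
  · exact (hp.h_zero h).ge
  · exact (hp.h_pos h).le

theorem Mem.i_zero {P : Pt} (hp : Mem P) (h : P.h ≤ 0) : P.ι = 0 := by
  by_contra a
  linarith [hp.h_pos a]

theorem Mem.branch {P : Pt} (hp : Mem P) (h : 0 < P.ι) :
    P.ι ∈ SS ∧ P.n = 0 ∧ W P.ι < P.ρ ∧ P.h = min P.ι (P.ρ - W P.ι) := by
  rcases hp.2.2 with a | a | a | a
  · exact absurd a.1 h.ne'
  · exact absurd a.1 h.ne'
  · exact ⟨a.1, a.2.1, a.2.2.1, a.2.2.2.1⟩
  · exfalso
    linarith [SS_pos a.1]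

theorem Mem.stem {P : Pt} (hp : Mem P) (h : P.ι < 0) :
    -P.ι ∈ SS ∧ 0 < P.n ∧ P.n < 2 / 3 + P.ι / 2 ∧
      P.y = 2 + min (2 / 3 + P.ι / 2 - P.n) (P.ι ^ 2 / 5) ∧ P.ρ = W P.y - 4 / 3 ∧
      P.h = min (-P.ι) (min P.n (2 / 3 + P.ι / 2 - P.n)) := by
  rcases hp.2.2 with a | a | a | a
  · exact absurd a.1 h.ne
  · exact absurd a.1 h.ne
  · exfalso
    linarith [SS_pos a.1]
  · exact a

theorem Mem.n_nonneg {P : Pt} (hp : Mem P) : 0 ≤ P.n := by
  rcases hp.2.2 with a | a | a | a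
  · exact a.2.2.1.ge
  · exact a.2.2.1
  · exact a.2.1.ge
  · exact a.2.1.le

theorem Mem.floor {P : Pt} (hp : Mem P) : W P.y ≤ 4 / 3 + P.ρ := by
  rcases hp.2.2 with a | a | a | a
  · exact a.2.2.2
  · rw [a.2.2.2.2.1, a.2.2.2.2.2, W_two]
    linarith
  · exact a.2.2.2.2
  · linarith [a.2.2.2.2.1]

theorem Mem.net {P : Pt} (hp : Mem P) (h : 0 < P.n) :
    W P.y = 4 / 3 + P.ρ ∧ 2 ≤ P.y ∧ P.ρ ≤ 1 / 500 ∧ P.ι ≤ 0 ∧ (P.ι = 0 → P.y = 2 ∧ P.ρ = 0) := by
  rcases hp.2.2 with a | a | a | a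
  · exact absurd a.2.2.1 h.ne'
  · refine ⟨?_, a.2.2.2.2.1.ge, by linarith [a.2.2.2.2.2], a.1.le, fun _ => a.2.2.2.2⟩
    rw [a.2.2.2.2.1, a.2.2.2.2.2, W_two]
    linarith
  · exact absurd a.2.1 h.ne'
  · obtain ⟨a1, a2, a3, a4, a5, -⟩ := a
    have b1 := SS_pos a1
    have b2 := SS_le a1
    have b3 : 0 ≤ min (2 / 3 + P.ι / 2 - P.n) (P.ι ^ 2 / 5) := le_min (by linarith) (by positivity)
    have b4 := min_le_right (2 / 3 + P.ι / 2 - P.n) (P.ι ^ 2 / 5)
    have b5 := W_lip (show (0 : ℝ) ≤ 2 by norm_num) (show 2 ≤ P.y by linarith)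
    refine ⟨by linarith, by linarith, ?_, by linarith, fun e => by linarith⟩
    rw [W_two] at b5
    nlinarith

noncomputable instance : MetricSpace X where
  dist p q := max (DR |p.1.ρ - q.1.ρ| p.1.y q.1.y) (max |p.1.n - q.1.n| (dE p.1.ι p.1.h q.1.ι q.1.h))
  dist_self p := by
    have h1 : DR |p.1.ρ - p.1.ρ| p.1.y p.1.y ≤ 0 :=
      (DR_le_iff (abs_nonneg _) p.2.1 p.2.1).2 (rel_of_W p.2.1 p.2.1 (by simp) (by simp))
    rw [dE_same, sub_self p.1.n, sub_self p.1.h, abs_zero, max_self]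
    exact max_eq_right h1
  dist_comm p q := by
    rw [dE_comm, abs_sub_comm p.1.n, abs_sub_comm p.1.ρ]
    congr 1
    unfold DR
    congr 1
    ext t
    exact ⟨Rel.symm, Rel.symm⟩
  dist_triangle p q r := by
    refine max_le ?_ (max_le ?_ ?_)
    · refine le_trans ?_ (add_le_add (le_max_left _ _) (le_max_left _ _))
      refine (DR_le_iff (abs_nonneg _) p.2.1 r.2.1).2 ?_
      exact ((DR_rel (abs_nonneg _) p.2.1 q.2.1).add q.2.1
        (DR_rel (abs_nonneg _) q.2.1 r.2.1)).mono_d (abs_sub_le _ _ _)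
    · exact le_trans (abs_sub_le _ q.1.n _) (add_le_add (le_max_of_le_right (le_max_left _ _))
        (le_max_of_le_right (le_max_left _ _)))
    · exact le_trans (dE_tri p.2.h_nonneg q.2.h_nonneg r.2.h_nonneg)
        (add_le_add (le_max_of_le_right (le_max_right _ _)) (le_max_of_le_right (le_max_right _ _)))
  eq_of_dist_eq_zero := by
    intro p q hd
    have h1 := (DR_le_iff (abs_nonneg _) p.2.1 q.2.1).1 (le_trans (le_max_left _ _) hd.le)
    have h2 : |p.1.n - q.1.n| ≤ 0 := le_trans (le_max_of_le_right (le_max_left _ _)) hd.le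
    have h3 : dE p.1.ι p.1.h q.1.ι q.1.h ≤ 0 :=
      le_trans (le_max_of_le_right (le_max_right _ _)) hd.le
    have b1 := p.2.h_nonneg
    have b2 := q.2.h_nonneg
    refine Subtype.ext (Pt.ext ?_ ?_ ?_ ?_ ?_)
    · linarith [abs_nonpos_iff.1 (h1.le p.2.1 q.2.1)]
    · linarith [abs_nonpos_iff.1 h1.1]
    · linarith [abs_nonpos_iff.1 h2]
    · by_contra a
      rw [dE_ne a] at h3
      exact a ((p.2.i_zero (by linarith)).trans (q.2.i_zero (by linarith)).symm)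
    · linarith [abs_nonpos_iff.1 ((dE_ge b1 b2).trans h3)]

theorem dist_le_iff {p q : X} {t : ℝ} :
    dist p q ≤ t ↔ Rel |p.1.ρ - q.1.ρ| p.1.y q.1.y t ∧ |p.1.n - q.1.n| ≤ t ∧
      dE p.1.ι p.1.h q.1.ι q.1.h ≤ t := by
  rw [← DR_le_iff (abs_nonneg _) p.2.1 q.2.1, ← max_le_iff, ← max_le_iff]
  rfl

theorem rho_lip (p q : X) : |p.1.ρ - q.1.ρ| ≤ dist p q :=
  (dist_le_iff.1 le_rfl).1.le p.2.1 q.2.1

theorem y_lip (p q : X) : |p.1.y - q.1.y| ≤ dist p q := (dist_le_iff.1 le_rfl).1.1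

theorem n_lip (p q : X) : |p.1.n - q.1.n| ≤ dist p q := (dist_le_iff.1 le_rfl).2.1

theorem rho_cont : Continuous fun p : X => p.1.ρ :=
  (LipschitzWith.mk_one fun p q => rho_lip p q).continuous

theorem y_cont : Continuous fun p : X => p.1.y :=
  (LipschitzWith.mk_one fun p q => y_lip p q).continuous

theorem n_cont : Continuous fun p : X => p.1.n :=
  (LipschitzWith.mk_one fun p q => n_lip p q).continuous

def gauge : Gauge X := ⟨fun p => p.1.ρ, fun p => p.2.2.1, fun p q =>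
  (le_abs_self _).trans (rho_lip p q)⟩

end Pool.Agent.H.MP_fe87ae_co
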