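import Pool.Agent.H.MP_fe87ae_co.B

set_option autoImplicit false

namespace Pool.Agent.H.MP_fe87ae_co

open Filter Topology

def y0 : X := ⟨⟨0, 0, 0, 0, 0⟩, le_rfl, le_rfl, Or.inl ⟨rfl, rfl, rfl, by
  show W 0 ≤ 4 / 3 + 0
  rw [W_zero]
  norm_num⟩⟩

noncomputable def x0 : X := ⟨⟨0, 2, 2 / 3, 0, 0⟩, by norm_num, le_rfl,
  Or.inr (Or.inl ⟨rfl, rfl, by norm_num, le_rfl, rfl, rfl⟩)⟩

open Classical in
noncomputable def toX (P : Pt) : X := if h : Mem P then ⟨P, h⟩ else y0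

theorem toX_val {P : Pt} (h : Mem P) : (toX P).1 = P := by
  unfold toX
  rw [dif_pos h]

theorem toX_eq {P : Pt} {p : X} (h : P = p.1) : toX P = p := by
  apply Subtype.ext
  rw [toX_val (h ▸ p.2), h]

abbrev S0 : Set ℝ := insert 0 SS

theorem S0_nonneg {s : ℝ} (h : s ∈ S0) : 0 ≤ s := by
  rcases h with h | h
  · exact h.ge
  · exact (SS_pos h).le

theorem S0_le {s : ℝ} (h : s ∈ S0) : s ≤ 1 / 10 := by
  rcases h with h | h
  · rw [h]
    norm_num
  · exact SS_le h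

theorem S0_pos {s : ℝ} (h : s ∈ S0) (h0 : 0 < s) : s ∈ SS := by
  rcases h with h | h
  · exact absurd h h0.ne'
  · exact h

noncomputable def hb (s ρ : ℝ) : ℝ := max 0 (min s (ρ - W s))

noncomputable def mkR (s ρ y : ℝ) : Pt := ⟨ρ, y, 0, if 0 < hb s ρ then s else 0, hb s ρ⟩

noncomputable def hn (s n : ℝ) : ℝ := max 0 (min s (min n (2 / 3 - s / 2 - n)))

noncomputable def yn (s n : ℝ) : ℝ := 2 + min (max 0 (2 / 3 - s / 2 - n)) (s ^ 2 / 5)

noncomputable def mkN (s n : ℝ) : Pt :=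
  ⟨W (yn s n) - 4 / 3, yn s n, n, if 0 < hn s n then -s else 0, hn s n⟩

theorem max_pos {a : ℝ} (h : 0 < max 0 a) : 0 < a := by
  rcases lt_max_iff.1 h with h | h
  · exact absurd h (lt_irrefl _)
  · exact h

theorem max_zero {a : ℝ} (h : ¬ 0 < max 0 a) : max 0 a = 0 ∧ a ≤ 0 :=
  ⟨le_antisymm (not_lt.1 h) (le_max_left _ _), (le_max_right _ _).trans (not_lt.1 h)⟩

theorem mkR_mem {s ρ y : ℝ} (hs : s ∈ S0) (h1 : 0 ≤ ρ) (h2 : 0 ≤ y) (h3 : W y ≤ 4 / 3 + ρ) :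
    Mem (mkR s ρ y) := by
  refine ⟨h2, h1, ?_⟩
  by_cases h : 0 < hb s ρ
  · have h4 := max_pos h
    have h5 := lt_min_iff.1 h4
    simp only [mkR, if_pos h]
    exact Or.inr (Or.inr (Or.inl ⟨S0_pos hs h5.1, trivial, by linarith [h5.2],
      max_eq_right h4.le, h3⟩))
  · simp only [mkR, if_neg h]
    exact Or.inl ⟨trivial, (max_zero h).1, trivial, h3⟩

theorem yn_ge (s n : ℝ) : 2 ≤ yn s n := by
  have : 0 ≤ min (max 0 (2 / 3 - s / 2 - n)) (s ^ 2 / 5) :=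
    le_min (le_max_left _ _) (by positivity)
  unfold yn
  linarith

theorem mkN_mem {s n : ℝ} (hs : s ∈ S0) (h1 : 0 ≤ n) (h2 : n ≤ 2 / 3) : Mem (mkN s n) := by
  have a1 := yn_ge s n
  have a2 := W_mono (show (0 : ℝ) ≤ 2 by norm_num) a1
  rw [W_two] at a2
  refine ⟨show 0 ≤ yn s n by linarith, show 0 ≤ W (yn s n) - 4 / 3 by linarith, ?_⟩
  by_cases h : 0 < hn s n
  · have h4 := max_pos h
    obtain ⟨h5, h6⟩ := lt_min_iff.1 h4
    obtain ⟨h7, h8⟩ := lt_min_iff.1 h6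
    simp only [mkN, if_pos h, neg_neg]
    refine Or.inr (Or.inr (Or.inr ⟨S0_pos hs h5, h7, by linarith, ?_, trivial, ?_⟩))
    · unfold yn
      rw [max_eq_right h8.le]
      congr 2 <;> ring
    · unfold hn
      rw [max_eq_right h4.le]
      congr 2
      ring
  · obtain ⟨h4, h5⟩ := max_zero h
    have h6 : yn s n = 2 → W (yn s n) - 4 / 3 = 0 := fun e => by
      rw [e, W_two]
      norm_num
    simp only [mkN, if_neg h]
    rcases min_le_iff.1 h5 with h7 | h7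
    · have h8 : yn s n = 2 := by
        unfold yn
        rw [le_antisymm h7 (S0_nonneg hs), min_eq_right (by simp)]
        norm_num
      exact Or.inr (Or.inl ⟨trivial, h4, h1, h2, h8, h6 h8⟩)
    · rcases min_le_iff.1 h7 with h7 | h7
      · exact Or.inl ⟨trivial, h4, le_antisymm h7 h1, by linarith⟩
      · have h8 : yn s n = 2 := by
          unfold yn
          rw [max_eq_left h7, min_eq_left (by positivity)]
          norm_num
        exact Or.inr (Or.inl ⟨trivial, h4, h1, h2, h8, h6 h8⟩)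

theorem R_eq {P : Pt} (hp : Mem P) (h : P.n = 0) : P.ι ∈ S0 ∧ mkR P.ι P.ρ P.y = P := by
  rcases lt_trichotomy P.ι 0 with a | a | a
  · exact absurd h (hp.stem a).2.1.ne'
  · refine ⟨Or.inl a, Pt.ext rfl rfl h.symm ?_ ?_⟩
    · simp [mkR, a]
    · show hb P.ι P.ρ = P.h
      rw [hp.h_zero a, a]
      exact max_eq_left (min_le_left _ _)
  · obtain ⟨b1, -, -, b2⟩ := hp.branch a
    have b3 := hp.h_pos a.ne'
    have b4 : hb P.ι P.ρ = P.h := by
      unfold hb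
      rw [← b2]
      exact max_eq_right b3.le
    refine ⟨Or.inr b1, Pt.ext rfl rfl h.symm ?_ b4⟩
    exact if_pos (b4 ▸ b3)

theorem N_eq {P : Pt} (hp : Mem P) (h : 0 < P.n) :
    ∃ s ∈ S0, P.n ≤ 2 / 3 ∧ mkN s P.n = P := by
  rcases hp.2.2 with a | a | a | a
  · exact absurd a.2.2.1 h.ne'
  · have h8 : yn 0 P.n = 2 := by
      unfold yn
      rw [min_eq_right (by simp)]
      norm_num
    have h9 : hn 0 P.n = 0 := max_eq_left (min_le_left _ _)
    refine ⟨0, Or.inl rfl, a.2.2.2.1, Pt.ext ?_ ?_ rfl ?_ ?_⟩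
    · show W (yn 0 P.n) - 4 / 3 = P.ρ
      rw [h8, W_two, a.2.2.2.2.2]
      norm_num
    · exact h8.trans a.2.2.2.2.1.symm
    · simp [mkN, a.1]
    · exact h9.trans a.2.1.symm
  · exact absurd a.2.1 h.ne'
  · obtain ⟨a1, a2, a3, a4, a5, a6⟩ := a
    have b1 := SS_pos a1
    have b3 := hp.h_pos (show P.ι ≠ 0 by linarith)
    have h8 : yn (-P.ι) P.n = P.y := by
      unfold yn
      rw [max_eq_right (by linarith), a4]
      congr 2 <;> ring
    have h9 : hn (-P.ι) P.n = P.h := by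
      unfold hn
      rw [show 2 / 3 - -P.ι / 2 - P.n = 2 / 3 + P.ι / 2 - P.n by ring, ← a6]
      exact max_eq_right b3.le
    refine ⟨-P.ι, Or.inr a1, by linarith, Pt.ext ?_ h8 rfl ?_ h9⟩
    · show W (yn (-P.ι) P.n) - 4 / 3 = P.ρ
      rw [h8, a5]
    · show (if 0 < hn (-P.ι) P.n then - -P.ι else 0) = P.ι
      rw [if_pos (h9 ▸ b3), neg_neg]

theorem dE_norm {i i' h h' c : ℝ} (_ : 0 ≤ h) (_ : 0 ≤ h') (hc : 0 ≤ c)
    (hh : i ≠ i' → 0 < h → 0 < h' → h + h' ≤ c) :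
    dE (if 0 < h then i else 0) h (if 0 < h' then i' else 0) h' ≤ |h - h'| + c := by
  have a1 := le_abs_self (h - h')
  have a2 := neg_abs_le (h - h')
  by_cases e : (if 0 < h then i else 0) = if 0 < h' then i' else 0
  · rw [e, dE_same]
    linarith
  · rw [dE_ne e]
    by_cases b1 : 0 < h <;> by_cases b2 : 0 < h'
    · rw [if_pos b1, if_pos b2] at e
      linarith [hh e b1 b2, abs_nonneg (h - h')]
    · linarith [not_lt.1 b2]
    · linarith [not_lt.1 b1]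
    · linarith [not_lt.1 b1, not_lt.1 b2, abs_nonneg (h - h')]

theorem S0_sep {s s' h h' : ℝ} (hs : s ∈ S0) (hs' : s' ∈ S0) (h1 : h ≤ s) (h2 : h' ≤ s')
    (e : s ≠ s') (a : 0 < h) (b : 0 < h') : h + h' ≤ 2 * |s - s'| := by
  have c1 := S0_pos hs (by linarith)
  have c2 := S0_pos hs' (by linarith)
  rcases lt_or_gt_of_ne e with e | e
  · linarith [SS_gap c1 c2 e, neg_abs_le (s - s')]
  · linarith [SS_gap c2 c1 e, le_abs_self (s - s')]

theorem dist_bound (p q : X) : dist p q ≤ |p.1.y - q.1.y| +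
    2 * (Real.sqrt |p.1.ρ - q.1.ρ| + |p.1.ρ - q.1.ρ|) + |p.1.n - q.1.n| +
      dE p.1.ι p.1.h q.1.ι q.1.h := by
  have a1 := abs_nonneg (p.1.y - q.1.y)
  have a2 := abs_nonneg (p.1.ρ - q.1.ρ)
  have a3 := abs_nonneg (p.1.n - q.1.n)
  have a4 := Real.sqrt_nonneg |p.1.ρ - q.1.ρ|
  have a5 := (abs_nonneg _).trans (dE_ge (i := p.1.ι) (j := q.1.ι) p.2.h_nonneg q.2.h_nonneg)
  exact dist_le_iff.2 ⟨(rel_bound a2 p.2.1 q.2.1).mono_t p.2.1 q.2.1 (by linarith),
    by linarith, by linarith⟩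

theorem contOn_of {Z : Type} [TopologicalSpace Z] {φ : Z → X} {A : Set Z} (β : Z → Z → ℝ)
    (hβ : ∀ b, Continuous fun a => β a b) (h0 : ∀ b, β b b = 0)
    (h : ∀ a ∈ A, ∀ b ∈ A, dist (φ a) (φ b) ≤ β a b) : ContinuousOn φ A := by
  intro b hb
  refine tendsto_iff_dist_tendsto_zero.2 (squeeze_zero' (Eventually.of_forall fun _ => dist_nonneg)
    (eventually_nhdsWithin_of_forall fun a ha => h a ha b hb) ?_)
  exact ((hβ b).tendsto' b 0 (h0 b)).mono_left nhdsWithin_le_nhds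

theorem proper (M : ℝ) : IsCompact {p : X | gauge.ρ p ≤ M} := by
  have hW := W_cont
  have k1 : IsCompact ((S0 ×ˢ (Set.Icc 0 M ×ˢ Set.Icc 0 (M + 3))) ∩
      {a : ℝ × ℝ × ℝ | W a.2.2 ≤ 4 / 3 + a.2.1}) :=
    (SS_compact.prod (isCompact_Icc.prod isCompact_Icc)).inter_right
      (isClosed_le (by fun_prop) (by fun_prop))
  have k2 : IsCompact (S0 ×ˢ Set.Icc (0 : ℝ) (2 / 3)) := SS_compact.prod isCompact_Icc
  have c1 := k1.image_of_continuousOn (f := fun a => toX (mkR a.1 a.2.1 a.2.2)) (contOn_of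
    (fun a b => |a.2.2 - b.2.2| + 2 * (Real.sqrt |a.2.1 - b.2.1| + |a.2.1 - b.2.1|) + 0 +
      (|hb a.1 a.2.1 - hb b.1 b.2.1| + 2 * |a.1 - b.1|))
    (fun b => by unfold hb; fun_prop) (fun b => by simp) (by
      rintro a ⟨⟨a1, a2, a3⟩, a4⟩ b ⟨⟨b1, b2, b3⟩, b4⟩
      refine le_trans (dist_bound _ _) ?_
      rw [toX_val (mkR_mem a1 a2.1 a3.1 a4), toX_val (mkR_mem b1 b2.1 b3.1 b4)]
      simp only [mkR, sub_self, abs_zero]
      refine add_le_add le_rfl (dE_norm (le_max_left _ _) (le_max_left _ _) (by positivity)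
        (S0_sep a1 b1 ?_ ?_))
      · exact max_le (S0_nonneg a1) (min_le_left _ _)
      · exact max_le (S0_nonneg b1) (min_le_left _ _)))
  have c2 := k2.image_of_continuousOn (f := fun a => toX (mkN a.1 a.2)) (contOn_of
    (fun a b => |yn a.1 a.2 - yn b.1 b.2| +
      2 * (Real.sqrt |W (yn a.1 a.2) - 4 / 3 - (W (yn b.1 b.2) - 4 / 3)| +
        |W (yn a.1 a.2) - 4 / 3 - (W (yn b.1 b.2) - 4 / 3)|) + |a.2 - b.2| +
      (|hn a.1 a.2 - hn b.1 b.2| + 2 * |a.1 - b.1|))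
    (fun b => by unfold hn yn; fun_prop) (fun b => by simp) (by
      rintro a ⟨a1, a2⟩ b ⟨b1, b2⟩
      refine le_trans (dist_bound _ _) ?_
      rw [toX_val (mkN_mem a1 a2.1 a2.2), toX_val (mkN_mem b1 b2.1 b2.2)]
      simp only [mkN]
      refine add_le_add le_rfl (dE_norm (le_max_left _ _) (le_max_left _ _) (by positivity)
        fun e => S0_sep a1 b1 ?_ ?_ fun e' => e (congrArg Neg.neg e'))
      · exact max_le (S0_nonneg a1) (min_le_left _ _)
      · exact max_le (S0_nonneg b1) (min_le_left _ _)))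
  refine (c1.union c2).of_isClosed_subset (isClosed_le rho_cont continuous_const) fun p hp => ?_
  have hp' : p.1.ρ ≤ M := hp
  rcases p.2.n_nonneg.lt_or_eq with h | h
  · obtain ⟨s, hs, h1, h2⟩ := N_eq p.2 h
    exact Or.inr ⟨(s, p.1.n), ⟨hs, h.le, h1⟩, toX_eq h2⟩
  · obtain ⟨h1, h2⟩ := R_eq p.2 h.symm
    have h3 := p.2.floor
    refine Or.inl ⟨(p.1.ι, p.1.ρ, p.1.y), ⟨⟨h1, ⟨p.2.2.1, hp'⟩, p.2.1, ?_⟩, h3⟩, toX_eq h2⟩
    show p.1.y ≤ M + 3
    have := T_pos p.1.y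
    unfold W at h3
    linarith

instance : CompleteSpace X := by
  refine Metric.complete_of_cauchySeq_tendsto fun u hu => ?_
  obtain ⟨R, -, hR⟩ := cauchySeq_bdd hu
  obtain ⟨x, -, hx⟩ := cauchySeq_tendsto_of_isComplete (proper ((u 0).1.ρ + R)).isComplete
    (fun n => by
      have := (le_abs_self _).trans (rho_lip (u n) (u 0))
      show (u n).1.ρ ≤ _
      linarith [hR n 0]) hu
  exact ⟨x, hx⟩

open Classical in
noncomputable def psi (i : ℝ) (p : X) : ℝ := if p.1.ι = i then p.1.h else -p.1.h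

theorem psi_cont (i : ℝ) : Continuous (psi i) := by
  refine (LipschitzWith.mk_one fun p q => ?_).continuous
  have h1 : dE p.1.ι p.1.h q.1.ι q.1.h ≤ dist p q := (dist_le_iff.1 le_rfl).2.2
  refine le_trans ?_ h1
  have a1 := p.2.h_nonneg
  have a2 := q.2.h_nonneg
  rw [Real.dist_eq]
  unfold psi dE
  by_cases a : p.1.ι = i <;> by_cases b : q.1.ι = i <;> by_cases c : p.1.ι = q.1.ι
  · simp only [if_pos a, if_pos b, if_pos c, le_refl]
  · exact absurd (a.trans b.symm) c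
  · exact absurd (c.symm.trans a) b
  · simp only [if_pos a, if_neg b, if_neg c]
    exact abs_le.2 ⟨by linarith, by linarith⟩
  · exact absurd (c.trans b) a
  · simp only [if_neg a, if_pos b, if_neg c]
    exact abs_le.2 ⟨by linarith, by linarith⟩
  · simp only [if_neg a, if_neg b, if_pos c]
    rw [abs_sub_comm]
    exact le_of_eq (by congr 1; ring)
  · simp only [if_neg a, if_neg b, if_neg c]
    exact abs_le.2 ⟨by linarith, by linarith⟩

noncomputable def hgt (i : ℝ) (p : X) : ℝ :=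
  if 0 < i then min i (p.1.ρ - W i) else min (-i) (min p.1.n (2 / 3 + i / 2 - p.1.n))

theorem hgt_cont (i : ℝ) : Continuous (hgt i) := by
  have h1 := rho_cont
  have h2 := n_cont
  unfold hgt
  split_ifs <;> fun_prop

theorem exit {F : ℝ → X} (hF : Continuous F) {i a b : ℝ} (hi : i ≠ 0) (hab : a ≤ b)
    (ha : (F a).1.ι = i) (hb : (F b).1.ι ≠ i) :
    ∃ c, a < c ∧ c ≤ b ∧ (F c).1.ι = 0 ∧ hgt i (F c) = 0 ∧
      ∀ t, a ≤ t → t < c → (F t).1.ι = i := by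
  obtain ⟨c, h1, h2, h3, h4⟩ := first_zero ((psi_cont i).comp hF) hab
    (by simp only [Function.comp, psi, if_pos ha]; exact (F a).2.h_pos (ha ▸ hi))
    (by simp only [Function.comp, psi, if_neg hb]; linarith [(F b).2.h_nonneg])
  have h5 : ∀ t, a ≤ t → t < c → (F t).1.ι = i := by
    intro t a1 a2
    by_contra e
    have := h4 t a1 a2
    simp only [Function.comp, psi, if_neg e] at this
    linarith [(F t).2.h_nonneg]
  refine ⟨c, h1, h2, (F c).2.i_zero ?_, ?_, h5⟩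
  · simp only [Function.comp, psi] at h3
    split_ifs at h3 <;> linarith
  · rw [← h3]
    refine eq_at_end ((hgt_cont i).comp hF) ((psi_cont i).comp hF) h1 fun t a1 a2 => ?_
    have e := h5 t a1 a2
    simp only [Function.comp, psi, if_pos e, hgt]
    split_ifs with h
    · rw [((F t).2.branch (e ▸ h)).2.2.2, e]
    · rw [((F t).2.stem (e ▸ lt_of_le_of_ne (not_lt.1 h) hi)).2.2.2.2.2, e]

theorem exit_rev {F : ℝ → X} (hF : Continuous F) {i a b : ℝ} (hi : i ≠ 0) (hab : a ≤ b)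
    (hb : (F b).1.ι = i) (ha : (F a).1.ι ≠ i) :
    ∃ c, a ≤ c ∧ c < b ∧ (F c).1.ι = 0 ∧ hgt i (F c) = 0 := by
  obtain ⟨c, h1, h2, h3, h4, -⟩ := exit (F := fun t => F (-t)) (hF.comp continuous_neg) hi
    (neg_le_neg hab) (by simpa using hb) (by simpa using ha)
  exact ⟨-c, by linarith, by linarith, h3, h4⟩

noncomputable def qq (s ρ : ℝ) : ℝ := if 0 < s then min ρ (W s) else ρ

noncomputable def dH (s ρ s' ρ' : ℝ) : ℝ :=
  |qq s ρ - qq s' ρ'| + dE s (ρ - qq s ρ) s' (ρ' - qq s' ρ')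

theorem qq_le (s ρ : ℝ) : qq s ρ ≤ ρ := by
  unfold qq
  split_ifs
  · exact min_le_left _ _
  · exact le_rfl

theorem qq_nonneg (s : ℝ) {ρ : ℝ} (h : 0 ≤ ρ) : 0 ≤ qq s ρ := by
  unfold qq
  split_ifs with a
  · exact le_min h (W_nonneg a.le)
  · exact h

theorem qq_of_le {s ρ μ : ℝ} (h : μ ≤ qq s ρ) : qq s μ = μ := by
  unfold qq at h ⊢
  split_ifs at h ⊢
  · exact min_eq_left (h.trans (min_le_right _ _))
  · rfl

theorem dH_same (s ρ ρ' : ℝ) : dH s ρ s ρ' = |ρ - ρ'| := by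
  unfold dH qq
  rw [dE_same]
  split_ifs
  · rcases min_cases ρ (W s) with a | a <;> rcases min_cases ρ' (W s) with b | b <;>
      rw [a.1, b.1]
    · simp
    · rw [abs_of_nonpos (by linarith [a.2]), abs_of_nonpos (by linarith [b.2]),
        abs_of_nonpos (by linarith [a.2, b.2])]
      ring
    · rw [abs_of_nonneg (by linarith [b.2]), abs_of_nonneg (by linarith [a.2]),
        abs_of_nonneg (by linarith [a.2, b.2])]
      ring
    · simp
  · simp

theorem dH_ne {s s' : ℝ} (h : s ≠ s') (ρ ρ' : ℝ) :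
    dH s ρ s' ρ' = ρ + ρ' - 2 * min (qq s ρ) (qq s' ρ') := by
  unfold dH
  rw [dE_ne h]
  rcases min_cases (qq s ρ) (qq s' ρ') with a | a <;> rw [a.1]
  · rw [abs_of_nonpos (by linarith [a.2])]
    ring
  · rw [abs_of_nonneg (by linarith [a.2])]
    ring

theorem dH_comm (s ρ s' ρ' : ℝ) : dH s ρ s' ρ' = dH s' ρ' s ρ := by
  unfold dH
  rw [dE_comm, abs_sub_comm]

theorem dH_tri (s ρ s' ρ' s'' ρ'' : ℝ) : dH s ρ s'' ρ'' ≤ dH s ρ s' ρ' + dH s' ρ' s'' ρ'' := by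
  have a1 := abs_sub_le (qq s ρ) (qq s' ρ') (qq s'' ρ'')
  have a2 := dE_tri (i := s) (j := s') (k := s'') (sub_nonneg.2 (qq_le s ρ))
    (sub_nonneg.2 (qq_le s' ρ')) (sub_nonneg.2 (qq_le s'' ρ''))
  unfold dH
  linarith

theorem dH_ge (s ρ s' ρ' : ℝ) : |ρ - ρ'| ≤ dH s ρ s' ρ' := by
  by_cases h : s = s'
  · rw [h, dH_same]
  · rw [dH_ne h]
    have a1 := (min_le_left (qq s ρ) (qq s' ρ')).trans (qq_le s ρ)
    have a2 := (min_le_right (qq s ρ) (qq s' ρ')).trans (qq_le s' ρ')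
    exact abs_le.2 ⟨by linarith, by linarith⟩

theorem dH_zero {s s' μ : ℝ} (h : qq s μ = μ) (h' : qq s' μ = μ) : dH s μ s' μ = 0 := by
  by_cases e : s = s'
  · rw [e, dH_same]
    simp
  · rw [dH_ne e, h, h', min_self]
    ring

theorem dH_norm {s : ℝ} (ρ y : ℝ) : dH (mkR s ρ y).ι ρ s ρ = 0 := by
  simp only [mkR]
  split_ifs with h
  · rw [dH_same]
    simp
  · refine dH_zero (by simp [qq]) ?_
    unfold qq
    split_ifs with a
    · rcases min_le_iff.1 (max_zero h).2 with b | b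
      · linarith
      · exact min_eq_left (by linarith)
    · rfl

noncomputable def dX (p q : X) : ℝ := dH p.1.ι p.1.ρ q.1.ι q.1.ρ

theorem lipR {F : ℝ → X} (hF : LipschitzWith 1 F) {a b : ℝ} (hab : a ≤ b) :
    dist (F a) (F b) ≤ b - a := by
  have := hF.dist_le_mul a b
  rw [Real.dist_eq, abs_sub_comm, abs_of_nonneg (by linarith)] at this
  simpa using this

theorem path_rel {F : ℝ → X} (hF : LipschitzWith 1 F) {a b : ℝ} (hab : a ≤ b) :
    Rel (dX (F a) (F b)) (F a).1.y (F b).1.y (b - a) := by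
  have base : ∀ c d, c ≤ d → Rel |(F c).1.ρ - (F d).1.ρ| (F c).1.y (F d).1.y (d - c) :=
    fun c d h => (dist_le_iff.1 (lipR hF h)).1
  have hq : ∀ (p : X) (c : ℝ), 0 < p.1.ι → hgt p.1.ι (F c) = 0 → (F c).1.ρ = qq p.1.ι p.1.ρ := by
    intro p c h1 h2
    unfold hgt at h2
    unfold qq
    rw [if_pos h1] at h2 ⊢
    rw [min_eq_right (p.2.branch h1).2.2.1.le]
    rcases min_cases p.1.ι ((F c).1.ρ - W p.1.ι) with e | e <;> linarith [e.1]
  by_cases e : (F a).1.ι = (F b).1.ι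
  · unfold dX
    rw [e, dH_same]
    exact base a b hab
  · obtain ⟨c1, a1, a2, a3, a4⟩ : ∃ c1, a ≤ c1 ∧ c1 ≤ b ∧
        (F c1).1.ρ = qq (F a).1.ι (F a).1.ρ ∧ (0 < (F b).1.ι → (F c1).1.ι ≠ (F b).1.ι) := by
      by_cases h : 0 < (F a).1.ι
      · obtain ⟨c, b1, b2, b3, b4, -⟩ := exit hF.continuous h.ne' hab rfl (Ne.symm e)
        exact ⟨c, b1.le, b2, hq _ c h b4, fun b5 => b3 ▸ b5.ne⟩
      · exact ⟨a, le_rfl, hab, by simp [qq, h], fun _ => e⟩
    obtain ⟨c2, b1, b2, b3⟩ : ∃ c2, c1 ≤ c2 ∧ c2 ≤ b ∧ (F c2).1.ρ = qq (F b).1.ι (F b).1.ρ := by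
      by_cases h : 0 < (F b).1.ι
      · obtain ⟨c, b1, b2, -, b4⟩ := exit_rev hF.continuous h.ne' a2 rfl (a4 h)
        exact ⟨c, b1, b2.le, hq _ c h b4⟩
      · exact ⟨b, a2, le_rfl, by simp [qq, h]⟩
    have := ((base a c1 a1).add (F c1).2.1 (base c1 c2 b1)).add (F c2).2.1 (base c2 b b2)
    rw [show c1 - a + (c2 - c1) + (b - c2) = b - a by ring, a3, b3] at this
    refine this.mono_d ?_
    unfold dX dH
    rw [dE_ne e]
    linarith [le_abs_self ((F a).1.ρ - qq (F a).1.ι (F a).1.ρ),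
      neg_abs_le (qq (F b).1.ι (F b).1.ρ - (F b).1.ρ)]

theorem dist_R {p q : X} {t : ℝ} (hp : p.1.n = 0) (hq : q.1.n = 0)
    (h : Rel (dX p q) p.1.y q.1.y t) : dist p q ≤ t := by
  have h1 := h.le p.2.1 q.2.1
  have h0 : 0 ≤ t := (abs_nonneg _).trans h.1
  refine dist_le_iff.2 ⟨h.mono_d (dH_ge _ _ _ _), by rw [hp, hq]; simpa using h0,
    le_trans ?_ h1⟩
  have key : ∀ r : X, r.1.n = 0 → r.1.h ≤ r.1.ρ - qq r.1.ι r.1.ρ := by
    intro r hr
    rcases (S0_nonneg (R_eq r.2 hr).1).lt_or_eq with a | a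
    · obtain ⟨-, -, b1, b2⟩ := r.2.branch a
      unfold qq
      rw [if_pos a, min_eq_right b1.le, b2]
      exact min_le_right _ _
    · rw [r.2.h_zero a.symm]
      exact sub_nonneg.2 (qq_le _ _)
  unfold dX
  by_cases e : p.1.ι = q.1.ι
  · rw [e, dE_same, dH_same]
    rcases (S0_nonneg (R_eq q.2 hq).1).lt_or_eq with a | a
    · rw [(p.2.branch (e ▸ a)).2.2.2, (q.2.branch a).2.2.2, e]
      refine le_trans (abs_min_sub_min_le_max _ _ _ _) (max_le (by simp) (le_of_eq ?_))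
      congr 1
      ring
    · rw [p.2.h_zero (e.trans a.symm), q.2.h_zero a.symm]
      simp
  · unfold dH
    rw [dE_ne e, dE_ne e]
    linarith [key p hp, key q hq, abs_nonneg (qq p.1.ι p.1.ρ - qq q.1.ι q.1.ρ)]

theorem dist_mkR {s ρ y s' ρ' y' t : ℝ} (h : Mem (mkR s ρ y)) (h' : Mem (mkR s' ρ' y'))
    (h1 : |y - y'| ≤ t) (h2 : dH s ρ s' ρ' ≤ |W y - W y'|) :
    dist (toX (mkR s ρ y)) (toX (mkR s' ρ' y')) ≤ t := by
  refine dist_R (by rw [toX_val h]; rfl) (by rw [toX_val h']; rfl) ?_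
  unfold dX
  rw [toX_val h, toX_val h']
  refine rel_of_W h.1 h'.1 h1 (le_trans ?_ h2)
  have a1 := dH_tri (mkR s ρ y).ι ρ s ρ (mkR s' ρ' y').ι ρ'
  have a2 := dH_tri s ρ s' ρ' (mkR s' ρ' y').ι ρ'
  rw [dH_comm s' ρ', dH_norm] at a2
  rw [dH_norm] at a1
  exact le_trans a1 (by linarith)

theorem geodesic (s s' : ℝ) {ρ ρ' : ℝ} (h : 0 ≤ ρ) (h' : 0 ≤ ρ') :
    ∃ σ r : ℝ → ℝ, (∀ l, σ l = s ∨ σ l = s') ∧ σ 0 = s ∧ r 0 = ρ ∧ (∀ l, 0 ≤ r l) ∧
      (∀ l l', l ≤ l' → dH (σ l) (r l) (σ l') (r l') ≤ l' - l) ∧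
      dH (σ (dH s ρ s' ρ')) (r (dH s ρ s' ρ')) s' ρ' = 0 := by
  obtain ⟨μ, a0, a1, a2, a3, a4⟩ : ∃ μ, 0 ≤ μ ∧ μ ≤ ρ ∧ μ ≤ ρ' ∧ dH s μ s' μ = 0 ∧
      dH s ρ s' ρ' = ρ + ρ' - 2 * μ := by
    by_cases e : s = s'
    · refine ⟨min ρ ρ', le_min h h', min_le_left _ _, min_le_right _ _, by simp [e, dH_same], ?_⟩
      rw [e, dH_same]
      rcases min_cases ρ ρ' with a | a <;> rw [a.1]
      · rw [abs_of_nonpos (by linarith [a.2])]
        ring
      · rw [abs_of_nonneg (by linarith [a.2])]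
        ring
    · exact ⟨_, le_min (qq_nonneg s h) (qq_nonneg s' h'), (min_le_left _ _).trans (qq_le _ _),
        (min_le_right _ _).trans (qq_le _ _),
        dH_zero (qq_of_le (min_le_left _ _)) (qq_of_le (min_le_right _ _)), dH_ne e _ _⟩
  refine ⟨fun l => if l ≤ ρ - μ then s else s',
    fun l => if l ≤ ρ - μ then ρ - l else μ + (l - (ρ - μ)), fun l => ?_, if_pos (by linarith),
    by simp [a1], fun l => ?_, fun l l' hl => ?_, ?_⟩
  · by_cases c : l ≤ ρ - μ <;> simp [c]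
  · by_cases c : l ≤ ρ - μ <;> simp only [c, if_true, if_false] <;> linarith
  · by_cases c : l ≤ ρ - μ <;> by_cases c' : l' ≤ ρ - μ <;> simp only [c, c', if_true, if_false]
    · rw [dH_same]
      exact abs_le.2 ⟨by linarith, by linarith⟩
    · have b1 := dH_tri s (ρ - l) s μ s' (μ + (l' - (ρ - μ)))
      have b2 := dH_tri s μ s' μ s' (μ + (l' - (ρ - μ)))
      rw [dH_same, abs_of_nonneg (by linarith)] at b1
      rw [dH_same, abs_of_nonpos (by linarith)] at b2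
      linarith
    · exfalso
      linarith
    · rw [dH_same]
      exact abs_le.2 ⟨by linarith, by linarith⟩
  · by_cases c : dH s ρ s' ρ' ≤ ρ - μ <;> simp only [c, if_true, if_false]
    · have : ρ' = μ := by linarith
      rw [a4, this, show ρ - (ρ + μ - 2 * μ) = μ by ring, a3]
    · rw [dH_same, a4, abs_eq_zero]
      ring

end Pool.Agent.H.MP_fe87ae_co
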