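import Pool.Agent.H.MP_fe87ae_co.C

set_option autoImplicit false

namespace Pool.Agent.H.MP_fe87ae_co

open Filter Topology

theorem mkR_low {s ρ : ℝ} (y : ℝ) (h : s ≤ 0 ∨ ρ ≤ W s) : mkR s ρ y = ⟨ρ, y, 0, 0, 0⟩ := by
  have h1 : hb s ρ = 0 := by
    refine max_eq_left ?_
    rcases h with h | h
    · exact (min_le_left _ _).trans h
    · exact (min_le_right _ _).trans (by linarith)
  simp [mkR, h1]

noncomputable def gP (s : ℝ) (t : NNReal) : X := toX (mkR s (W t) t)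

theorem gP_mem {s t : ℝ} (hs : s ∈ S0) (ht : 0 ≤ t) : Mem (mkR s (W t) t) :=
  mkR_mem hs (W_nonneg ht) ht (by linarith)

theorem gP_lip {s : ℝ} (hs : s ∈ S0) : LipschitzWith 1 (gP s) := by
  refine lip_of fun a b hab => dist_mkR (gP_mem hs a.2) (gP_mem hs b.2) ?_ (dH_same _ _ _).le
  have : (a : ℝ) ≤ b := hab
  exact abs_le.2 ⟨by linarith, by linarith⟩

theorem gP_zero {s : ℝ} (hs : s ∈ S0) : gP s 0 = y0 := by
  apply toX_eq
  rw [NNReal.coe_zero, mkR_low _ (Or.inr (W_mono le_rfl (S0_nonneg hs))), W_zero]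
  rfl

theorem gP_agree {s : ℝ} (hs : s ∈ SS) : ∀ t, t ≤ s.toNNReal → gP s t = gP 0 t := by
  intro t ht
  unfold gP
  rw [mkR_low _ (Or.inr (W_mono t.coe_nonneg (le_toNN (SS_pos hs).le ht))), mkR_low _ (Or.inl le_rfl)]

theorem hgt_pos {s : ℝ} (hs : s ∈ SS) {p : X} (h1 : 0 < p.1.n) (h2 : p.1.n < 2 / 3 - s / 2) :
    hgt (-s) p ≠ 0 := by
  have := SS_pos hs
  unfold hgt
  rw [if_neg (by linarith)]
  exact (lt_min (by linarith) (lt_min h1 (by linarith))).ne'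

theorem land {F : ℝ → X} (hF : LipschitzWith 1 F) (h0 : F 0 = x0) {t : ℝ} (ht : 0 ≤ t)
    (hn : (F t).1.n = 0) :
    ∃ τ s, 2 / 3 ≤ τ ∧ τ ≤ t ∧ s ∈ S0 ∧ (F τ).1.ι = 0 ∧ (F τ).1.y = 2 + s ^ 2 / 5 ∧
      (F τ).1.ρ = W (2 + s ^ 2 / 5) - 4 / 3 ∧ (F τ).1.n = 0 ∧
      (0 < s → ∀ t0, 0 ≤ t0 → t0 ≤ τ - 1 / 3 →
        (∀ u, t0 ≤ u → u < τ → (F u).1.n < 2 / 3 - s / 2) → (F t0).1.ι = -s) := by
  have hc := hF.continuous
  have n0 : (F 0).1.n = 2 / 3 := by rw [h0]; rfl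
  obtain ⟨τ, a1, a2, a3, a4⟩ := first_zero (n_cont.comp hc) ht
    (by simp only [Function.comp, n0]; norm_num) hn.le
  simp only [Function.comp] at a3 a4
  have nl : ∀ u, u ≤ τ → (F u).1.n ≤ τ - u := fun u hu => by
    have := (le_abs_self _).trans ((n_lip _ _).trans (lipR hF hu))
    linarith
  have b1 : 2 / 3 ≤ τ := by linarith [nl 0 a1.le]
  have b2 : (F τ).1.ι < 0 → False := fun h => by linarith [((F τ).2.stem h).2.1]
  have small : ∀ s ∈ SS, ∀ c, τ - 1 / 3 ≤ c → c < τ → hgt (-s) (F c) ≠ 0 := fun s hs c h1 h2 =>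
    hgt_pos hs (a4 c (by linarith) h2) (by linarith [nl c h2.le, SS_le hs])
  rcases ((F (τ - 1 / 3)).2.net (a4 _ (by linarith) (by linarith))).2.2.2.1.lt_or_eq with h | h
  · obtain ⟨s, hs⟩ : ∃ s, (F (τ - 1 / 3)).1.ι = -s := ⟨_, (neg_neg _).symm⟩
    have s1 : s ∈ SS := by
      have := ((F (τ - 1 / 3)).2.stem h).1
      rwa [hs, neg_neg] at this
    have s2 := SS_pos s1
    have s3 := SS_le s1
    obtain ⟨c, c1, c2, c3, c4, c5⟩ := exit hc (show -s ≠ 0 by linarith)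
      (show τ - 1 / 3 ≤ τ by linarith) hs fun e => b2 (by linarith)
    have c6 : c = τ := by
      by_contra e
      exact small s s1 c c1.le (lt_of_le_of_ne c2 e) c4
    subst c6
    have hy : ∀ u, c - 1 / 3 ≤ u → u < c → (F u).1.y = 2 + s ^ 2 / 5 := by
      intro u u1 u2
      have e := c5 u u1 u2
      rw [((F u).2.stem (by linarith)).2.2.2.1, e, neg_sq, min_eq_right]
      nlinarith [nl u u2.le]
    refine ⟨c, s, b1, a2, Or.inr s1, c3, ?_, ?_, a3, fun _ t0 d1 d2 d3 => ?_⟩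
    · exact eq_at_end (y_cont.comp hc) continuous_const c1 hy
    · refine eq_at_end (rho_cont.comp hc) continuous_const c1 fun u u1 u2 => ?_
      show (F u).1.ρ = _
      rw [((F u).2.stem (by linarith [c5 u u1 u2])).2.2.2.2.1, hy u u1 u2]
    · by_contra e
      obtain ⟨d, e1, e2, -, e4⟩ := exit_rev hc (show -s ≠ 0 by linarith) d2 hs e
      exact hgt_pos s1 (a4 d (by linarith) (by linarith)) (d3 d e1 (by linarith)) e4
  · have hy : ∀ u, τ - 1 / 3 ≤ u → u < τ → (F u).1.y = 2 ∧ (F u).1.ρ = 0 := by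
      intro u u1 u2
      obtain ⟨-, -, -, e1, e2⟩ := (F u).2.net (a4 u (by linarith) u2)
      refine e2 ?_
      by_contra e
      have e3 := lt_of_le_of_ne e1 e
      obtain ⟨d, d1, d2, -, d4⟩ := exit_rev hc e u1 rfl (by rw [h]; exact Ne.symm e)
      refine small _ ((F u).2.stem e3).1 d d1 (by linarith) ?_
      rw [neg_neg]
      exact d4
    have r0 : (F τ).1.ρ = 0 := eq_at_end (rho_cont.comp hc) continuous_const
      (show τ - 1 / 3 < τ by linarith) fun u u1 u2 => (hy u u1 u2).2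
    refine ⟨τ, 0, b1, a2, Or.inl rfl, ?_, ?_, ?_, a3, fun h => absurd h (lt_irrefl _)⟩
    · rcases lt_trichotomy (F τ).1.ι 0 with e | e | e
      · exact (b2 e).elim
      · exact e
      · linarith [((F τ).2.branch e).2.2.1, W_nonneg e.le]
    · have := eq_at_end (y_cont.comp hc) continuous_const
        (show τ - 1 / 3 < τ by linarith) fun u u1 u2 => (hy u u1 u2).1
      simpa using this
    · rw [r0]
      norm_num [W_two]

theorem cap {s : ℝ} (hs : s ∈ SS) {f : NNReal → X} (hf : LipschitzWith 1 f) (h0 : f 0 = x0)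
    (hc : ∃ t, f t = gP s t) :
    ∃ r ∈ SS, r ≤ s ∧ (f s.toNNReal).1.ι = -r ∧ (f s.toNNReal).1.n < 2 / 3 - s + r ^ 2 / 5 := by
  obtain ⟨t, ht⟩ := hc
  have hF := lip_ext hf
  have t0 : (0 : ℝ) ≤ t := t.2
  have s1 := SS_pos hs
  have s2 := SS_le hs
  have e1 : (f (t : ℝ).toNNReal).1 = mkR s (W t) t := by
    rw [Real.toNNReal_coe, ht]
    exact toX_val (gP_mem (Or.inr hs) t0)
  obtain ⟨τ, r, a1, a2, a3, a4, a5, a6, a7, a8⟩ := land hF (by simpa using h0) t0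
    (by simp only [e1]; rfl)
  have b1 := path_rel hF a2
  simp only [dX, e1, a4, a5, a6] at b1
  obtain ⟨m, hm⟩ : ∃ m, m = r ^ 2 / 5 := ⟨_, rfl⟩
  rw [← hm] at b1
  have r1 := S0_le a3
  have r0 := S0_nonneg a3
  have m0 : 0 ≤ m := by rw [hm]; positivity
  have b2 := dH_tri 0 (W (2 + m) - 4 / 3) (mkR s (W t) t).ι (W t) s (W t)
  rw [dH_norm, dH_ne s1.ne] at b2
  have b3 : qq 0 (W (2 + m) - 4 / 3) = W (2 + m) - 4 / 3 := by simp [qq]
  have b4 : qq s (W t) ≤ W s := by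
    unfold qq
    rw [if_pos s1]
    exact min_le_right _ _
  rw [b3] at b2
  have b5 := min_le_left (W (2 + m) - 4 / 3) (qq s (W t))
  have b6 := min_le_right (W (2 + m) - 4 / 3) (qq s (W t))
  obtain ⟨c1, c2⟩ := b1
  have c3 := (abs_le.1 c1).1
  change -(t - τ) ≤ 2 + m - t at c3
  change dH 0 (W (2 + m) - 4 / 3) (mkR s (W t) t).ι (W t) + T (2 + m) + T t ≤
    t - τ + 2 * T ((2 + m + t + (t - τ)) / 2) at c2
  have w1 : W t = t - 1 + T t := rfl
  have w2 : W (2 + m) = 2 + m - 1 + T (2 + m) := rfl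
  have c4 := T_anti t0 (show (t : ℝ) ≤ (2 + m + t + (t - τ)) / 2 by linarith)
  have c5 := T_strict t0 (show (t : ℝ) < (2 + m + t + (t - τ)) / 2 by linarith)
  have c6 : τ < 2 / 3 + m := by linarith
  have c7 : 0 < r := by
    by_contra e
    have : r = 0 := le_antisymm (not_lt.1 e) r0
    rw [this] at hm
    norm_num at hm
    linarith
  have c8 := S0_pos a3 c7
  have c9 : r ≤ s := by
    by_contra e
    have d1 := SS_gap hs c8 (not_le.1 e)
    have d2 := W_le_sq s1.le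
    have d3 := W_two_ge m0
    nlinarith
  have nl : ∀ u, u ≤ τ → (f u.toNNReal).1.n ≤ τ - u := fun u hu => by
    have := (le_abs_self _).trans ((n_lip _ _).trans (lipR hF hu))
    linarith
  refine ⟨r, c8, c9, a8 c7 s s1.le (by linarith) fun u u1 u2 => ?_, ?_⟩
  · have := nl u u2.le
    nlinarith
  · linarith [nl s (by linarith)]

theorem no_lion : ¬ LionWins x0 y0 := by
  rintro ⟨Ψ, h1, h2, h3⟩
  have z : (0 : ℝ) ∈ S0 := Or.inl rfl
  obtain ⟨l0, l1⟩ := h1 _ (gP_lip z) (gP_zero z)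
  have key : ∀ s ∈ SS, ∃ r ∈ SS, r ≤ s ∧ (Ψ (gP 0) s.toNNReal).1.ι = -r ∧
      (Ψ (gP 0) s.toNNReal).1.n < 2 / 3 - s + r ^ 2 / 5 := by
    intro s hs
    have a1 := gP_lip (Or.inr hs)
    have a2 := gP_zero (Or.inr hs)
    rw [← h2 _ _ a1 a2 (gP_lip z) (gP_zero z) _ (gP_agree hs)]
    exact cap hs (h1 _ a1 a2).1 (h1 _ a1 a2).2 (h3 _ a1 a2)
  have hF := lip_ext l0
  obtain ⟨r, r1, r2, r3, r4⟩ := key _ SS_first
  obtain ⟨q, q1, q2, q3, -⟩ := key _ (SS_next r1)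
  have a1 := SS_pos r1
  have a2 := SS_pos q1
  obtain ⟨c, c1, c2, -, c4, -⟩ := exit hF.continuous (show -q ≠ 0 by linarith)
    (show r / 4 ≤ 1 / 10 by linarith) q3 (by rw [r3]; intro e; linarith)
  have b1 := (abs_le.1 ((n_lip _ _).trans (lipR hF (show 0 ≤ c by linarith)))).2
  have b2 := (abs_le.1 ((n_lip _ _).trans (lipR hF c2))).2
  simp only [Real.toNNReal_zero, l1] at b1
  have b3 : x0.1.n = 2 / 3 := rfl
  by_cases e : (Ψ (gP 0) c.toNNReal).1.n < 2 / 3 - q / 2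
  · exact hgt_pos q1 (by linarith) e c4
  · nlinarith

end Pool.Agent.H.MP_fe87ae_co
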