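import Pool.Agent.H.MP_fe87ae_co.D

set_option autoImplicit false

namespace Pool.Agent.H.MP_fe87ae_co

open Filter Topology

noncomputable def Bup (c Y : ℝ) : ℝ := T c + T Y - 2 * T ((c + Y) / 2)

theorem Bup_ge {c Y Z g : ℝ} (hc : 0 ≤ c) (hg : 0 ≤ g) (h : c + g ≤ Y) (hZ : 1 + Y ≤ Z) :
    g ^ 2 / (2 * Z ^ 3) ≤ Bup c Y := by
  have e : Bup c Y = (Y - c) ^ 2 / ((1 + c) * (1 + Y) * (2 + c + Y)) := by
    unfold Bup
    rw [T_eq hc, T_eq (by linarith), T_eq (by linarith)]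
    have : 0 < 1 + Y := by linarith
    have : 0 < 2 + c + Y := by linarith
    rw [show 1 + (c + Y) / 2 = (2 + c + Y) / 2 by ring]
    field_simp
    ring
  rw [e]
  have a1 : (1 + c) * (1 + Y) ≤ Z * Z :=
    mul_le_mul (by linarith) hZ (by linarith) (by linarith)
  have a2 : (1 + c) * (1 + Y) * (2 + c + Y) ≤ Z * Z * (2 * Z) :=
    mul_le_mul a1 (by linarith) (by linarith) (mul_self_nonneg _)
  refine div_le_div₀ (sq_nonneg _) (pow_le_pow_left₀ hg (by linarith) 2) ?_ (by linarith)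
  exact mul_pos (mul_pos (by linarith) (by linarith)) (by linarith)

def Caught (G : (NNReal → X) → NNReal → X) : Prop :=
  ∃ f, LipschitzWith 1 f ∧ f 0 = x0 ∧ ∃ t, G f t = f t

noncomputable def EE (p : X) : ℝ := p.1.ρ + 1 - T p.1.y

theorem EE_lip {p q : X} {t : ℝ} (h : dist p q ≤ t) : EE q ≤ EE p + t := by
  obtain ⟨a1, a2⟩ := (dist_le_iff.1 h).1
  have a3 := T_anti q.2.1 (show q.1.y ≤ (p.1.y + q.1.y + t) / 2 by linarith [(abs_le.1 a1).1])
  unfold EE
  linarith [neg_abs_le (p.1.ρ - q.1.ρ)]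

theorem T_zero : T 0 = 1 := by simp [T]

theorem chr {g : NNReal → X} (hg : LipschitzWith 1 g) (h0 : g 0 = y0) {t : ℝ} (ht : 0 ≤ t) :
    (g t.toNNReal).1.y ≤ t ∧ (g t.toNNReal).1.ρ ≤ t ∧ EE (g t.toNNReal) ≤ t ∧
      (g t.toNNReal).1.ρ + 1 + T (g t.toNNReal).1.y ≤
        t + 2 * T (((g t.toNNReal).1.y + t) / 2) := by
  have a := lip_real hg le_rfl ht
  rw [Real.toNNReal_zero, h0, sub_zero] at a
  have a1 := (abs_le.1 ((y_lip _ _).trans a)).1
  have a2 := (abs_le.1 ((rho_lip _ _).trans a)).1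
  have a3 := EE_lip a
  have a4 := (dist_le_iff.1 a).1.2
  have e1 : y0.1.y = 0 := rfl
  have e2 : y0.1.ρ = 0 := rfl
  have e3 : EE y0 = 0 := by simp [EE, e1, e2, T_zero]
  rw [e1, e2, T_zero, zero_add] at a4
  exact ⟨by linarith, by linarith, by linarith,
    by linarith [neg_abs_le (0 - (g t.toNNReal).1.ρ)]⟩

theorem n_zero {p : X} (h : p.1.y < 2) : p.1.n = 0 := by
  by_contra e
  linarith [(p.2.net (lt_of_le_of_ne p.2.n_nonneg (Ne.symm e))).2.1]

section
variable {G : (NNReal → X) → NNReal → X}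
  (h1 : ∀ l : NNReal → X, LipschitzWith 1 l → l 0 = x0 → LipschitzWith 1 (G l) ∧ G l 0 = y0)
  (h2 : ∀ l l' : NNReal → X, LipschitzWith 1 l → l 0 = x0 → LipschitzWith 1 l' → l' 0 = x0 →
    ∀ t : NNReal, (∀ s, s ≤ t → l s = l' s) → G l t = G l' t)
include h1 h2

theorem phaseA {f0 : NNReal → X} {t0 : ℝ} (i1 : LipschitzWith 1 f0) (i2 : f0 0 = x0) (i3 : 0 ≤ t0)
    (i4 : (f0 t0.toNNReal).1.n = 0) (i5 : (G f0 t0.toNNReal).1.n = 0)
    (i6 : (G f0 t0.toNNReal).1.y < (f0 t0.toNNReal).1.y)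
    (i7 : dX (f0 t0.toNNReal) (G f0 t0.toNNReal) ≤
      Bup (G f0 t0.toNNReal).1.y (f0 t0.toNNReal).1.y) : Caught G := by
  obtain ⟨E, hE⟩ : ∃ E, E = (f0 t0.toNNReal).1.y + t0 := ⟨_, rfl⟩
  refine limit_capture h1 h2 (fun f t => LipschitzWith 1 f ∧ f 0 = x0 ∧ 0 ≤ t ∧
      (f t.toNNReal).1.n = 0 ∧ (G f t.toNNReal).1.n = 0 ∧
      (G f t.toNNReal).1.y < (f t.toNNReal).1.y ∧
      dX (f t.toNNReal) (G f t.toNNReal) ≤ Bup (G f t.toNNReal).1.y (f t.toNNReal).1.y ∧
      (f t.toNNReal).1.y + t = E) E (2 * Real.sqrt (8 * (1 + E) ^ 3)) (by positivity)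
    (fun f t h => ⟨h.1, h.2.1, h.2.2.1, by linarith [h.2.2.2.2.2.2.2, (f t.toNNReal).2.1]⟩) ?_
    ⟨i1, i2, i3, i4, i5, i6, i7, hE.symm⟩
  rintro f t ⟨j1, j2, j3, j4, j5, j6, j7, j8⟩
  obtain ⟨L, hL⟩ : ∃ L, L = f t.toNNReal := ⟨_, rfl⟩
  obtain ⟨C, hC⟩ : ∃ C, C = G f t.toNNReal := ⟨_, rfl⟩
  rw [← hL] at j4 j6 j7 j8
  rw [← hC] at j5 j6 j7
  rw [← hL, ← hC]
  have c0 := C.2.1
  have hZ : 1 ≤ 1 + E := by linarith
  have hZ3 : (1 + E) ≤ (1 + E) ^ 3 := le_self_pow₀ hZ (by norm_num)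
  obtain ⟨δ, hδ⟩ : ∃ δ, δ = (L.1.y - C.1.y) ^ 2 / (8 * (1 + E) ^ 3) := ⟨_, rfl⟩
  have δ0 : 0 ≤ δ := by rw [hδ]; positivity
  have δ1 : δ ≤ (L.1.y - C.1.y) / 8 := by
    rw [hδ, div_le_div_iff₀ (by positivity) (by norm_num)]
    have : (L.1.y - C.1.y) * (L.1.y - C.1.y) ≤ (L.1.y - C.1.y) * (1 + E) ^ 3 :=
      mul_le_mul_of_nonneg_left (by linarith) (by linarith)
    nlinarith
  obtain ⟨σ, r, g1, g2, g3, g4, g5, g6⟩ := geodesic L.1.ι C.1.ι L.2.2.1 C.2.2.1
  have Δ0 : 0 ≤ dX L C := (abs_nonneg _).trans (dH_ge _ _ _ _)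
  change dH (σ (dX L C)) (r (dX L C)) C.1.ι C.1.ρ = 0 at g6
  have mem : ∀ u, 0 ≤ u → u ≤ δ → Mem (mkR (σ (min (dX L C) (W L.1.y - W (L.1.y - u))))
      (r (min (dX L C) (W L.1.y - W (L.1.y - u)))) (L.1.y - u)) := by
    intro u u0 u1
    refine mkR_mem ?_ (g4 _) (by linarith) ?_
    · rcases g1 (min (dX L C) (W L.1.y - W (L.1.y - u))) with e | e <;> rw [e]
      · exact (R_eq L.2 j4).1
      · exact (R_eq C.2 j5).1
    · have a1 := W_mono (show 0 ≤ L.1.y - u by linarith) (show L.1.y - u ≤ L.1.y by linarith)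
      have a2 := (dH_ge _ _ _ _).trans
        (g5 0 (min (dX L C) (W L.1.y - W (L.1.y - u))) (le_min Δ0 (by linarith)))
      rw [g3] at a2
      linarith [(abs_le.1 a2).2, min_le_right (dX L C) (W L.1.y - W (L.1.y - u)), L.2.floor]
  obtain ⟨f', k1, k2, k3⟩ := concat j1 j3 (γ := fun u =>
      toX (mkR (σ (min (dX L C) (W L.1.y - W (L.1.y - min u δ))))
        (r (min (dX L C) (W L.1.y - W (L.1.y - min u δ)))) (L.1.y - min u δ)))
    (by
      simp only [min_eq_left δ0, sub_zero, sub_self, min_eq_right Δ0, g2, g3]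
      rw [← hL]
      exact toX_eq (R_eq L.2 j4).2)
    (by
      intro a b a0 ab
      have a1 : 0 ≤ min a δ := le_min a0 δ0
      have a2 : min a δ ≤ min b δ := min_le_min ab le_rfl
      have a3 := min_le_right b δ
      have a4 : min b δ - min a δ ≤ b - a := by
        rcases min_cases a δ with e | e <;> rcases min_cases b δ with e' | e' <;>
          linarith [e.1, e.2, e'.1, e'.2]
      refine dist_mkR (mem _ a1 (a2.trans a3)) (mem _ (a1.trans a2) a3)
        (abs_le.2 ⟨by linarith, by linarith⟩) ?_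
      have a5 := W_mono (show 0 ≤ L.1.y - min b δ by linarith)
        (show L.1.y - min b δ ≤ L.1.y - min a δ by linarith)
      refine le_trans (g5 _ _ (min_le_min le_rfl (by linarith))) (le_trans ?_ (le_abs_self _))
      rcases min_cases (dX L C) (W L.1.y - W (L.1.y - min a δ)) with e | e <;>
        rcases min_cases (dX L C) (W L.1.y - W (L.1.y - min b δ)) with e' | e' <;>
        linarith [e.1, e.2, e'.1, e'.2])
  have k0 : f' 0 = x0 := (k2 0 (by simp)).trans j2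
  have k4 : G f' t.toNNReal = C := hC ▸ h2 _ _ k1 k0 j1 j2 _ k2
  have k5 := congrArg Subtype.val (k3 δ δ0)
  simp only [min_self] at k5
  rw [toX_val (mem δ δ0 le_rfl)] at k5
  have k6 := path_rel (lip_ext (h1 _ k1 k0).1) (show t ≤ t + δ by linarith)
  simp only [k4, add_sub_cancel_left] at k6
  obtain ⟨L', hL'⟩ : ∃ L', L' = f' (t + δ).toNNReal := ⟨_, rfl⟩
  obtain ⟨C', hC'⟩ : ∃ C', C' = G f' (t + δ).toNNReal := ⟨_, rfl⟩
  rw [← hL'] at k5
  rw [← hC'] at k6
  have m1 : L'.1.y = L.1.y - δ := by rw [k5]; rfl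
  have m2 : L'.1.n = 0 := by rw [k5]; rfl
  have b0 := C'.2.1
  obtain ⟨m3, m4⟩ := abs_le.1 k6.1
  have m5 : dX L' C' ≤ dX L C - min (dX L C) (W L.1.y - W (L.1.y - δ)) + dX C C' := by
    obtain ⟨l, hl⟩ : ∃ l, l = min (dX L C) (W L.1.y - W (L.1.y - δ)) := ⟨_, rfl⟩
    rw [← hl] at k5 ⊢
    have a1 := dH_tri (mkR (σ l) (r l) (L.1.y - δ)).ι (r l) (σ l) (r l) C'.1.ι C'.1.ρ
    have a2 := dH_tri (σ l) (r l) (σ (dX L C)) (r (dX L C)) C'.1.ι C'.1.ρ
    have a3 := dH_tri (σ (dX L C)) (r (dX L C)) C.1.ι C.1.ρ C'.1.ι C'.1.ρ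
    have a4 := g5 l (dX L C) (hl ▸ min_le_left _ _)
    rw [dH_norm] at a1
    have a5 : dX L' C' = dH (mkR (σ l) (r l) (L.1.y - δ)).ι (r l) C'.1.ι C'.1.ρ := by
      unfold dX
      rw [k5]
      rfl
    have a6 : dX C C' = dH C.1.ι C.1.ρ C'.1.ι C'.1.ρ := rfl
    linarith
  have m6 : dX L' C' ≤ Bup C'.1.y L'.1.y := by
    rw [m1]
    rcases min_cases (dX L C) (W L.1.y - W (L.1.y - δ)) with e | e
    · have a1 := k6.le c0 b0
      have a2 := Bup_ge (c := C'.1.y) (Y := L.1.y - δ) (Z := 1 + E) (g := (L.1.y - C.1.y) / 2) b0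
        (by linarith) (by linarith) (by linarith)
      rw [show ((L.1.y - C.1.y) / 2) ^ 2 / (2 * (1 + E) ^ 3) =
        (L.1.y - C.1.y) ^ 2 / (8 * (1 + E) ^ 3) by field_simp; ring] at a2
      linarith [e.1]
    · have a1 := T_sm b0 (show 0 ≤ (C.1.y + δ - C'.1.y) / 2 by linarith)
        (show 0 ≤ (L.1.y - δ - C'.1.y) / 2 by linarith)
      rw [show C'.1.y + (C.1.y + δ - C'.1.y) / 2 = (C.1.y + C'.1.y + δ) / 2 by ring,
        show C'.1.y + (L.1.y - δ - C'.1.y) / 2 = (C'.1.y + (L.1.y - δ)) / 2 by ring,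
        show (C.1.y + C'.1.y + δ) / 2 + (L.1.y - δ - C'.1.y) / 2 = (C.1.y + L.1.y) / 2 by ring] at a1
      have a2 := k6.2
      have a3 := e.1
      unfold W at a3 m5
      unfold Bup at j7 ⊢
      linarith
  have m7 : C'.1.n = 0 := by
    by_contra e
    have a1 := (C'.2.net (lt_of_le_of_ne C'.2.n_nonneg (Ne.symm e))).1
    have a2 := L'.2.floor
    have a3 := (le_abs_self _).trans ((dH_ge _ _ _ _).trans m6)
    have a4 := W_strict b0 (show C'.1.y < (C'.1.y + L'.1.y) / 2 by linarith)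
    unfold W at a1 a2 a4
    unfold Bup at a3
    linarith
  refine ⟨f', t + δ, ?_, by linarith, k2, ?_⟩
  · rw [← hL', ← hC']
    exact ⟨k1, k0, by linarith, m2, m7, by linarith, m6, by linarith⟩
  · have a1 : dist L C ≤ 2 * (L.1.y - C.1.y) := by
      refine dist_R j4 j5 ⟨abs_le.2 ⟨by linarith, by linarith⟩, ?_⟩
      have a2 := T_lip c0 (show C.1.y ≤ (C.1.y + L.1.y) / 2 by linarith)
      have a3 := T_lip L.2.1
        (show L.1.y ≤ (L.1.y + C.1.y + 2 * (L.1.y - C.1.y)) / 2 by linarith)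
      unfold Bup at j7
      linarith
    rw [add_sub_cancel_left, mul_assoc, ← Real.sqrt_mul (by positivity), hδ,
      mul_div_cancel₀ _ (by positivity), Real.sqrt_sq (by linarith)]
    exact a1

theorem chase {f : NNReal → X} {τ Y : ℝ} (i1 : LipschitzWith 1 f) (i2 : f 0 = x0) (i3 : 0 ≤ τ)
    (i4 : τ ≤ 1) (i5 : 2 ≤ Y) (i6 : Y ≤ 21 / 10)
    (i7 : f τ.toNNReal = toX (mkR 0 (W Y - 4 / 3) Y))
    (i8 : W Y - 4 / 3 ≤ qq (G f τ.toNNReal).1.ι (G f τ.toNNReal).1.ρ)
    (i9 : EE (G f τ.toNNReal) < Y - 4 / 3) : Caught G := by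
  obtain ⟨C, hC⟩ : ∃ C, C = G f τ.toNNReal := ⟨_, rfl⟩
  have c1 := (chr (h1 _ i1 i2).1 (h1 _ i1 i2).2 i3).1
  rw [← hC] at i8 i9 c1
  have c2 : C.1.n = 0 := n_zero (by linarith)
  obtain ⟨s, hs⟩ : ∃ s, s = C.1.ι := ⟨_, rfl⟩
  have s0 : s ∈ S0 := hs ▸ (R_eq C.2 c2).1
  rw [← hs] at i8
  have w2 : ∀ u, 0 ≤ u → 4 / 3 + 8 / 9 * u ≤ W (Y + u) := fun u hu =>
    (W_two_ge hu).trans (W_mono (by linarith) (by linarith))
  have mem : ∀ u, 0 ≤ u → Mem (mkR s (W (Y + u) - 4 / 3) (Y + u)) := fun u hu =>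
    mkR_mem s0 (by linarith [w2 u hu]) (by linarith) (by linarith)
  obtain ⟨f', k1, k2, k3⟩ := concat i1 i3 (γ := fun u => toX (mkR s (W (Y + u) - 4 / 3) (Y + u)))
    (by
      simp only [add_zero]
      rw [i7, mkR_low _ (Or.inl le_rfl), mkR_low]
      unfold qq at i8
      split_ifs at i8 with h
      · exact Or.inr (i8.trans (min_le_right _ _))
      · exact Or.inl (not_lt.1 h))
    (by
      intro a b a0 ab
      refine dist_mkR (mem a a0) (mem b (a0.trans ab)) (abs_le.2 ⟨by linarith, by linarith⟩) ?_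
      rw [dH_same]
      exact le_of_eq (by congr 1; ring))
  have k0 : f' 0 = x0 := (k2 0 (by simp)).trans i2
  have k4 : G f' τ.toNNReal = C := hC ▸ h2 _ _ k1 k0 i1 i2 _ k2
  obtain ⟨l1, l2⟩ := h1 _ k1 k0
  have hF := lip_ext l1
  obtain ⟨U, hU⟩ : ∃ U, U = 4 / (Y - 4 / 3 - EE C) := ⟨_, rfl⟩
  have U0 : 0 < U := by
    rw [hU]
    exact div_pos (by norm_num) (by linarith)
  have main : ∃ u, 0 ≤ u ∧ (G f' (τ + u).toNNReal).1.ι = s ∧ (G f' (τ + u).toNNReal).1.n = 0 ∧
      |W (Y + u) - 4 / 3 - (G f' (τ + u).toNNReal).1.ρ| ≤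
        Bup (G f' (τ + u).toNNReal).1.y (Y + u) := by
    let v : ℝ → ℝ := fun t => ((G f' t.toNNReal).1.ρ + (1 + U) -
      dH (G f' t.toNNReal).1.ι (G f' t.toNNReal).1.ρ s (1 + U)) / 2 -
        (W (Y + (t - τ)) - 4 / 3) - Bup (G f' t.toNNReal).1.y (Y + (t - τ))
    have v1 : ∀ t, τ ≤ t → t ≤ τ + U → (G f' t.toNNReal).1.ι = s → v t =
        (G f' t.toNNReal).1.ρ - (W (Y + (t - τ)) - 4 / 3) -
          Bup (G f' t.toNNReal).1.y (Y + (t - τ)) := by
      intro t a b e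
      have := (chr l1 l2 (show 0 ≤ t by linarith)).2.1
      simp only [v]
      rw [e, dH_same, abs_of_nonpos (by linarith)]
      ring
    by_cases h : v τ ≤ 0
    · rw [v1 τ le_rfl (by linarith) (by rw [k4, hs]), sub_self, k4] at h
      refine ⟨0, le_rfl, by rw [add_zero, k4, hs], by rw [add_zero, k4, c2], ?_⟩
      rw [add_zero τ, k4, abs_of_nonpos (by rw [add_zero]; linarith [qq_le s C.1.ρ])]
      linarith
    · have hc : Continuous v := by
        have a1 := rho_cont.comp hF.continuous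
        have a2 := y_cont.comp hF.continuous
        have a3 : Continuous fun t : ℝ =>
            dH (G f' t.toNNReal).1.ι (G f' t.toNNReal).1.ρ s (1 + U) := by
          refine (LipschitzWith.of_le_add fun a b => ?_).continuous
          have b1 := dH_tri (G f' a.toNNReal).1.ι (G f' a.toNNReal).1.ρ (G f' b.toNNReal).1.ι
            (G f' b.toNNReal).1.ρ s (1 + U)
          have b2 : dX (G f' a.toNNReal) (G f' b.toNNReal) ≤ dist a b := by
            rw [Real.dist_eq]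
            rcases le_total a b with e | e
            · refine ((path_rel hF e).le (G f' a.toNNReal).2.1 (G f' b.toNNReal).2.1).trans ?_
              rw [abs_sub_comm]
              exact le_abs_self _
            · unfold dX
              rw [dH_comm]
              exact ((path_rel hF e).le (G f' b.toNNReal).2.1 (G f' a.toNNReal).2.1).trans
                (le_abs_self _)
          unfold dX at b2
          linarith
        have a4 := W_cont
        have a5 := T_cont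
        refine (((a1.add continuous_const).sub a3).div_const 2 |>.sub (by fun_prop)).sub ?_
        unfold Bup
        exact ((a5.comp a2).add (by fun_prop)).sub (continuous_const.mul (a5.comp
          ((a2.add (by fun_prop)).div_const 2)))
      have hend : v (τ + U) ≤ 0 := by
        have a1 := EE_lip (lipR hF (show τ ≤ τ + U by linarith))
        have a2 := (neg_abs_le _).trans' (neg_le_neg (dH_ge (G f' (τ + U).toNNReal).1.ι
          (G f' (τ + U).toNNReal).1.ρ s (1 + U)))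
        have a3 := (G f' (τ + U).toNNReal).2.1
        have a4 := T_anti (show 0 ≤ U / 2 by linarith)
          (show U / 2 ≤ ((G f' (τ + U).toNNReal).1.y + (Y + U)) / 2 by linarith)
        have a5 : 2 * T (U / 2) ≤ Y - 4 / 3 - EE C := by
          have b1 : (Y - 4 / 3 - EE C) * U = 4 := by
            rw [hU]
            exact mul_div_cancel₀ _ (by linarith)
          rw [T_eq (by linarith), ← mul_div_assoc, div_le_iff₀ (by linarith)]
          nlinarith
        have a6 := T_pos (Y + U)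
        simp only [k4] at a1
        simp only [v, add_sub_cancel_left]
        unfold EE at a1 a5
        unfold W Bup
        linarith
      obtain ⟨t, t1, t2, t3, -⟩ := first_zero hc (show τ ≤ τ + U by linarith) (not_le.1 h) hend
      obtain ⟨u, rfl⟩ : ∃ u, t = τ + u := ⟨t - τ, by ring⟩
      have u0 : 0 ≤ u := by linarith
      have a1 := (chr l1 l2 (show 0 ≤ τ + u by linarith)).1
      have a2 := (G f' (τ + u).toNNReal).2.1
      have a3 := Bup_ge (g := 1) a2 (by norm_num) (show _ ≤ Y + u by linarith) le_rfl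
      have a4 : 0 < 1 ^ 2 / (2 * (1 + (Y + u)) ^ 3) := by positivity
      have a5 : 1 / 100 < W (Y + u) - 4 / 3 + Bup (G f' (τ + u).toNNReal).1.y (Y + u) := by
        by_cases e : u ≤ 1 / 5
        · have b1 := Bup_ge (g := 1) (Z := 7 / 2) a2 (by norm_num) (show _ ≤ Y + u by linarith)
            (by linarith)
          norm_num at b1
          linarith [w2 u u0]
        · linarith [w2 u u0]
      have small : ∀ r ∈ SS, ∀ ρ, qq r ρ ≤ 1 / 100 := by
        intro r hr ρ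
        have b1 := SS_pos hr
        have b2 := SS_le hr
        have b3 := W_le_sq b1.le
        unfold qq
        rw [if_pos b1]
        exact (min_le_right _ _).trans (by nlinarith)
      have a6 : (G f' (τ + u).toNNReal).1.ι = s := by
        by_contra e
        simp only [v, add_sub_cancel_left] at t3
        rw [dH_ne e] at t3
        have b1 := min_le_left (qq (G f' (τ + u).toNNReal).1.ι (G f' (τ + u).toNNReal).1.ρ)
          (qq s (1 + U))
        have b2 := min_le_right (qq (G f' (τ + u).toNNReal).1.ι (G f' (τ + u).toNNReal).1.ρ)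
          (qq s (1 + U))
        rcases lt_trichotomy (G f' (τ + u).toNNReal).1.ι 0 with b | b | b
        · have b3 := ((G f' (τ + u).toNNReal).2.net ((G f' (τ + u).toNNReal).2.stem b).2.1).2.2.1
          linarith [qq_le (G f' (τ + u).toNNReal).1.ι (G f' (τ + u).toNNReal).1.ρ]
        · rcases s0 with b3 | b3
          · exact e (b.trans b3.symm)
          · linarith [small s b3 (1 + U)]
        · linarith [small _ ((G f' (τ + u).toNNReal).2.branch b).1 (G f' (τ + u).toNNReal).1.ρ]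
      rw [v1 _ t1.le t2 a6, add_sub_cancel_left] at t3
      refine ⟨u, u0, a6, ?_, abs_le.2 ⟨by linarith, by linarith⟩⟩
      by_contra e
      have := ((G f' (τ + u).toNNReal).2.net
        (lt_of_le_of_ne (G f' (τ + u).toNNReal).2.n_nonneg (Ne.symm e))).2.2.1
      linarith
  obtain ⟨u, u0, m1, m2, m3⟩ := main
  have e : (f' (τ + u).toNNReal).1 = mkR s (W (Y + u) - 4 / 3) (Y + u) := by
    rw [k3 u u0]
    exact toX_val (mem u u0)
  refine phaseA h1 h2 k1 k0 (show 0 ≤ τ + u by linarith) (by rw [e]; rfl) m2 ?_ ?_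
  · rw [e]
    show _ < Y + u
    linarith [(chr l1 l2 (show 0 ≤ τ + u by linarith)).1]
  · unfold dX
    rw [e, m1]
    have := dH_tri (mkR s (W (Y + u) - 4 / 3) (Y + u)).ι (W (Y + u) - 4 / 3) s
      (W (Y + u) - 4 / 3) s (G f' (τ + u).toNNReal).1.ρ
    rw [dH_norm, dH_same, zero_add] at this
    exact this.trans m3

end

end Pool.Agent.H.MP_fe87ae_co
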