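import Pool.Agent.H.MP_fe87ae_co.E

set_option autoImplicit false

namespace Pool.Agent.H.MP_fe87ae_co

open Filter Topology

noncomputable def nP (s : ℝ) (t : NNReal) : X := toX (mkN s (max 0 (2 / 3 - t)))

theorem nP_mem {s : ℝ} (hs : s ∈ S0) (t : NNReal) : Mem (mkN s (max 0 (2 / 3 - t))) :=
  mkN_mem hs (le_max_left _ _) (max_le (by norm_num) (by linarith [t.coe_nonneg]))

theorem nP_lip {s : ℝ} (hs : s ∈ S0) : LipschitzWith 1 (nP s) := by
  refine lip_of fun a b hab => ?_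
  have h : (a : ℝ) ≤ b := hab
  have h1 : |max 0 (2 / 3 - (a : ℝ)) - max 0 (2 / 3 - (b : ℝ))| ≤ b - a :=
    le_trans (abs_max_sub_max_le_max _ _ _ _) (max_le (by simpa using h)
      (abs_le.2 ⟨by linarith, by linarith⟩))
  rw [dist_le_iff]
  unfold nP
  rw [toX_val (nP_mem hs a), toX_val (nP_mem hs b)]
  simp only [mkN]
  generalize max 0 (2 / 3 - (a : ℝ)) = n at *
  generalize max 0 (2 / 3 - (b : ℝ)) = n' at *
  have h0 := abs_nonneg (n - n')
  have h2 : |2 / 3 - s / 2 - n - (2 / 3 - s / 2 - n')| ≤ |n - n'| := by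
    rw [abs_sub_comm]
    exact le_of_eq (by congr 1; ring)
  refine ⟨rel_of_W (by linarith [yn_ge s n]) (by linarith [yn_ge s n']) (le_trans ?_ h1)
    (le_of_eq (by congr 1; ring)), h1, le_trans (dE_norm (c := 0) (le_max_left _ _)
      (le_max_left _ _) le_rfl fun e => absurd rfl e) (le_trans ?_ h1)⟩
  · unfold yn
    rw [add_sub_add_left_eq_sub]
    exact le_trans (abs_min_sub_min_le_max _ _ _ _) (max_le
      (le_trans (abs_max_sub_max_le_max _ _ _ _) (max_le (by simp) h2)) (by simp))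
  · rw [add_zero]
    exact le_trans (abs_max_sub_max_le_max _ _ _ _) (max_le (by simp)
      (le_trans (abs_min_sub_min_le_max _ _ _ _) (max_le (by simp)
        (le_trans (abs_min_sub_min_le_max _ _ _ _) (max_le le_rfl h2)))))

theorem mkN_low {s n : ℝ} (h : s = 0 ∨ 2 / 3 - s / 2 ≤ n) : mkN s n = ⟨0, 2, n, 0, 0⟩ := by
  have h1 : hn s n = 0 := by
    refine max_eq_left ?_
    rcases h with h | h
    · exact (min_le_left _ _).trans h.le
    · exact (min_le_right _ _).trans ((min_le_right _ _).trans (by linarith))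
  have h2 : yn s n = 2 := by
    unfold yn
    rcases h with h | h
    · rw [h, min_eq_right (by simp)]
      norm_num
    · rw [max_eq_left (by linarith), min_eq_left (by positivity), add_zero]
  simp [mkN, h1, h2, W_two]

theorem nP_zero {s : ℝ} (hs : s ∈ S0) : nP s 0 = x0 := by
  apply toX_eq
  rw [NNReal.coe_zero, sub_zero, max_eq_right (by norm_num),
    mkN_low (Or.inr (by linarith [S0_nonneg hs]))]
  rfl

theorem nP_agree {s : ℝ} (hs : s ∈ SS) : ∀ t, t ≤ (s / 2).toNNReal → nP s t = nP 0 t := by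
  intro t ht
  have := le_toNN (show 0 ≤ s / 2 by linarith [SS_pos hs]) ht
  unfold nP
  rw [mkN_low (Or.inl rfl), mkN_low (Or.inr (le_max_of_le_right (by linarith)))]

theorem nP_land {s : ℝ} (hs : s ∈ S0) :
    nP s (2 / 3 : ℝ).toNNReal = toX (mkR 0 (W (2 + s ^ 2 / 5) - 4 / 3) (2 + s ^ 2 / 5)) := by
  have a1 := S0_nonneg hs
  have a2 := S0_le hs
  have h1 : hn s 0 = 0 := max_eq_left ((min_le_right _ _).trans (min_le_left _ _))
  have h2 : yn s 0 = 2 + s ^ 2 / 5 := by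
    unfold yn
    rw [min_eq_right (le_max_of_le_right (by nlinarith))]
  unfold nP
  rw [Real.coe_toNNReal _ (by norm_num), sub_self, max_self, mkR_low _ (Or.inl le_rfl)]
  simp [mkN, h1, h2]

theorem no_chr : ¬ ChrWins x0 y0 := by
  rintro ⟨G, h1, h2, h3⟩
  suffices h : Caught G by
    obtain ⟨f, a, b, t, c⟩ := h
    exact h3 f a b t c
  have z : (0 : ℝ) ∈ S0 := Or.inl rfl
  obtain ⟨l1, l2⟩ := h1 _ (nP_lip z) (nP_zero z)
  by_cases h : ∃ m : ℝ, 0 ≤ m ∧ m ≤ 2 / 3 ∧ EE (G (nP 0) m.toNNReal) < m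
  · obtain ⟨m, a1, a2, a3⟩ := h
    refine chase h1 h2 (τ := 2 / 3) (Y := 2) (nP_lip z) (nP_zero z) (by norm_num) (by norm_num)
      le_rfl (by norm_num) (by simpa using nP_land z) ?_ ?_
    · rw [W_two, sub_self]
      exact qq_nonneg _ (G (nP 0) (2 / 3 : ℝ).toNNReal).2.2.1
    · linarith [EE_lip (lip_real l1 a1 a2)]
  push Not at h
  have eff : ∀ m : ℝ, 0 ≤ m → m ≤ 2 / 3 → (G (nP 0) m.toNNReal).1.y = m ∧
      (G (nP 0) m.toNNReal).1.ρ = W m ∧ (G (nP 0) m.toNNReal).1.ι ∈ S0 := by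
    intro m a1 a2
    obtain ⟨b1, -, -, b2⟩ := chr l1 l2 a1
    have b3 := h m a1 a2
    unfold EE at b3
    have b4 : (G (nP 0) m.toNNReal).1.y = m := by
      by_contra e
      have := T_strict (G (nP 0) m.toNNReal).2.1 (show (G (nP 0) m.toNNReal).1.y <
        ((G (nP 0) m.toNNReal).1.y + m) / 2 by linarith [lt_of_le_of_ne b1 e])
      linarith
    refine ⟨b4, ?_, (R_eq (G (nP 0) m.toNNReal).2 (n_zero (by linarith))).1⟩
    rw [b4, add_self_div_two] at b2
    rw [b4] at b3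
    unfold W
    linarith
  obtain ⟨s, hs, hι⟩ : ∃ s ∈ SS, (G (nP 0) (s / 2).toNNReal).1.ι = 0 := by
    by_contra hc
    push Not at hc
    obtain ⟨a1, a2, a3⟩ := eff (1 / 10 / 2) (by norm_num) (by norm_num)
    obtain ⟨r, hr⟩ : ∃ r, r = (G (nP 0) (1 / 10 / 2 : ℝ).toNNReal).1.ι := ⟨_, rfl⟩
    have r0 : 0 < r := lt_of_le_of_ne (hr ▸ S0_nonneg a3) (hr ▸ (hc _ SS_first).symm)
    have r1 := S0_pos (hr ▸ a3) r0
    have r2 := ((G (nP 0) (1 / 10 / 2 : ℝ).toNNReal).2.branch (hr ▸ r0)).2.2.1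
    rw [← hr, a2] at r2
    have r3 : r < 1 / 10 / 2 := by
      by_contra e
      linarith [W_mono (by norm_num) (not_lt.1 e)]
    obtain ⟨b1, b2, b3⟩ := eff (r / 2) (by linarith) (by linarith)
    obtain ⟨q, hq⟩ : ∃ q, q = (G (nP 0) (r / 2).toNNReal).1.ι := ⟨_, rfl⟩
    have q0 : 0 < q := lt_of_le_of_ne (hq ▸ S0_nonneg b3) (hq ▸ (hc _ r1).symm)
    have q2 := ((G (nP 0) (r / 2).toNNReal).2.branch (hq ▸ q0)).2.2.1
    rw [← hq, b2] at q2
    have q3 : q ≠ r := by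
      rintro rfl
      linarith [W_mono (show 0 ≤ q / 2 by linarith) (show q / 2 ≤ q by linarith)]
    have c1 := (path_rel (lip_ext l1) (show r / 2 ≤ 1 / 10 / 2 by linarith)).2
    simp only [dX, a1, a2, b1, b2, ← hr, ← hq] at c1
    rw [dH_ne q3, show (r / 2 + 1 / 10 / 2 + (1 / 10 / 2 - r / 2)) / 2 = 1 / 10 / 2 by ring] at c1
    have c2 : qq q (W (r / 2)) ≤ W q := by
      unfold qq
      rw [if_pos q0]
      exact min_le_right _ _
    have c3 := min_le_left (qq q (W (r / 2))) (qq r (W (1 / 10 / 2)))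
    have w1 : W (r / 2) = r / 2 - 1 + T (r / 2) := rfl
    have w2 : W (1 / 10 / 2) = 1 / 10 / 2 - 1 + T (1 / 10 / 2) := rfl
    linarith
  have s0 : s ∈ S0 := Or.inr hs
  have s1 := SS_pos hs
  have s2 := SS_le hs
  obtain ⟨a1, a2, -⟩ := eff (s / 2) (by linarith) (by linarith)
  rw [← h2 _ _ (nP_lip s0) (nP_zero s0) (nP_lip z) (nP_zero z) _ (nP_agree hs)] at hι a1 a2
  obtain ⟨k1, k2⟩ := h1 _ (nP_lip s0) (nP_zero s0)
  obtain ⟨m, hm⟩ : ∃ m, m = s ^ 2 / 5 := ⟨_, rfl⟩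
  have m0 : 0 < m := by rw [hm]; positivity
  have m1 : m ≤ 1 / 500 := by nlinarith
  have ld := nP_land s0
  rw [← hm] at ld
  obtain ⟨c1, -, c2, -⟩ := chr k1 k2 (show (0 : ℝ) ≤ 2 / 3 by norm_num)
  by_cases hq : W (2 + m) - 4 / 3 ≤ qq (G (nP s) (2 / 3 : ℝ).toNNReal).1.ι
      (G (nP s) (2 / 3 : ℝ).toNNReal).1.ρ
  · exact chase h1 h2 (nP_lip s0) (nP_zero s0) (by norm_num) (by norm_num) (by linarith)
      (by linarith) ld hq (by linarith)
  have pr := (path_rel (lip_ext k1) (show s / 2 ≤ 2 / 3 by linarith)).2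
  simp only [dX, a1, a2, hι] at pr
  obtain ⟨C, hC⟩ : ∃ C, C = G (nP s) (2 / 3 : ℝ).toNNReal := ⟨_, rfl⟩
  rw [← hC] at c1 c2 hq pr
  have w0 := W_lip (show (0 : ℝ) ≤ 2 by norm_num) (show 2 ≤ 2 + m by linarith)
  rw [W_two] at w0
  have key : EE C < 2 / 3 - m := by
    rcases (S0_nonneg (R_eq C.2 (n_zero (by linarith))).1).lt_or_eq with e | e
    · obtain ⟨b1, -, b2, -⟩ := C.2.branch e
      have b3 : qq C.1.ι C.1.ρ = W C.1.ι := by
        unfold qq
        rw [if_pos e, min_eq_right b2.le]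
      rw [dH_ne e.ne, b3] at pr
      rw [b3] at hq
      have b4 : C.1.ι < s := by
        by_contra e'
        have := W_mono s1.le (not_lt.1 e')
        have := W_ge_sq s1.le (by linarith)
        nlinarith
      have b5 := SS_gap b1 hs b4
      have b6 := W_le_sq e.le
      have b7 := W_ge_sq (show 0 ≤ s / 2 by linarith) (by linarith)
      have b8 := min_le_right (qq 0 (W (s / 2))) (W C.1.ι)
      have b9 := T_anti C.2.1 (show C.1.y ≤ (s / 2 + C.1.y + (2 / 3 - s / 2)) / 2 by linarith)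
      have w1 : W (s / 2) = s / 2 - 1 + T (s / 2) := rfl
      unfold EE
      nlinarith
    · have b3 : qq C.1.ι C.1.ρ = C.1.ρ := by simp [qq, ← e]
      have b4 := T_anti C.2.1 c1
      rw [T_eq (show (0 : ℝ) ≤ 2 / 3 by norm_num)] at b4
      unfold EE
      norm_num at b4
      linarith
  have mem : ∀ u, u ≤ m → Mem (mkR 0 (W (2 + m - u) - 4 / 3) (2 + m - u)) := fun u hu => by
    have := W_mono (show (0 : ℝ) ≤ 2 by norm_num) (show 2 ≤ 2 + m - u by linarith)
    exact mkR_mem z (by linarith [W_two]) (by linarith) (by linarith)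
  obtain ⟨f', d1, d2, d3⟩ := concat (nP_lip s0) (show (0 : ℝ) ≤ 2 / 3 by norm_num)
    (γ := fun u => toX (mkR 0 (W (2 + m - min u m) - 4 / 3) (2 + m - min u m)))
    (by simp only [min_eq_left m0.le, sub_zero, ld])
    (by
      intro a b _ ab
      have a4 : |2 + m - min a m - (2 + m - min b m)| ≤ b - a := by
        rcases min_cases a m with e | e <;> rcases min_cases b m with e' | e' <;>
          exact abs_le.2 ⟨by linarith [e.1, e.2, e'.1, e'.2], by linarith [e.1, e.2, e'.1, e'.2]⟩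
      refine dist_mkR (mem _ (min_le_right _ _)) (mem _ (min_le_right _ _)) a4 ?_
      rw [dH_same]
      exact le_of_eq (by congr 1; ring))
  have d0 : f' 0 = x0 := (d2 0 (by simp)).trans (nP_zero s0)
  have d4 : G f' (2 / 3 : ℝ).toNNReal = C := hC ▸ h2 _ _ d1 d0 (nP_lip s0) (nP_zero s0) _ d2
  have d5 := EE_lip (lip_real (h1 _ d1 d0).1 (show (0 : ℝ) ≤ 2 / 3 by norm_num)
    (show 2 / 3 ≤ 2 / 3 + m by linarith))
  rw [d4] at d5
  refine chase h1 h2 (τ := 2 / 3 + m) (Y := 2) d1 d0 (by linarith) (by linarith) le_rfl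
    (by norm_num) ?_ ?_ (by linarith)
  · rw [d3 m m0.le, min_self, add_sub_cancel_right]
  · rw [W_two, sub_self]
    exact qq_nonneg _ (G f' (2 / 3 + m).toNNReal).2.2.1

end Pool.Agent.H.MP_fe87ae_co
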